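import Pool.Agent.Q5.SG.Stm2
import Pool.Agent.Q14.SG.IJ
import Pool.Agent.Q166.SG.SL
import Pool.Agent.Q176.SG.XF
import Pool.Agent.Q182.SG.Tr
import Pool.Agent.Q222.SG.HB
import Pool.Agent.Q222.SG.KP
import Pool.Agent.Q222.SG.NP
import Pool.Agent.Q24.SG.CQ
import Pool.Agent.Q24.SG.DV
import Pool.Agent.Q241.SG.RC
import Pool.Agent.Q248.SG.CB
import Pool.Agent.Q248.SG.NR
import Pool.Agent.Q25.SG.DG
import Pool.Agent.Q251.SG.CH
import Pool.Agent.Q251.SG.QF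
import Pool.Agent.Q261.SG.GI
import Pool.Agent.Q277.SG.IG
import Pool.Agent.Q285.SG.EX
import Pool.Agent.Q285.SG.PW
import Pool.Agent.Q290.SG.FE
import Pool.Agent.Q290.SG.SM
import Pool.Agent.Q65.SG.DE
import Pool.Agent.Q84.SG.KU
import Pool.Agent.Q20.EX.All

/-!
# Project SH (helper5): the proved statements of the project SG

All of AR (`Pool.Agent.Q92.AR.All`) and EX (`Pool.Agent.Q20.EX.All`) is imported too.
-/

set_option autoImplicit false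

namespace Pool.Agent.Q5.SH

open Pool.Agent.Q5.SG

theorem b_SM : S_SM := Pool.Agent.Q290.SG.sm
theorem b_PW : S_PW := Pool.Agent.Q285.SG.pw
theorem b_RT : S_RT := Pool.Agent.Q285.SG.rt
theorem b_FE : S_FE := Pool.Agent.Q290.SG.fe
theorem b_VL : S_VL := Pool.Agent.Q290.SG.vl
theorem b_PS : S_PS := Pool.Agent.Q285.SG.ps
theorem b_AB : S_AB := Pool.Agent.Q290.SG.ab
theorem b_CR : S_CR := Pool.Agent.Q285.SG.cr b_AB
theorem b_EX : S_EX := Pool.Agent.Q285.SG.ex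
theorem b_CQ : S_CQ := Pool.Agent.Q24.SG.t_CQ
theorem b_QF : S_QF := Pool.Agent.Q251.SG.qf
theorem b_HB : S_HB := Pool.Agent.Q222.SG.hb
theorem b_DV : S_DV := Pool.Agent.Q24.SG.t_DV
theorem b_UH : S_UH := Pool.Agent.Q24.SG.t_UH
theorem b_RC : S_RC := Pool.Agent.Q241.SG.rc b_SM b_RT
theorem b_GI : S_GI := Pool.Agent.Q261.SG.gi b_PW
theorem b_TR : S_TR := Pool.Agent.Q182.SG.t_TR b_EX b_GI
theorem b_DE : S_DE := Pool.Agent.Q65.SG.de b_CR
theorem b_SL : S_SL := Pool.Agent.Q166.SG.sl b_DE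
theorem b_DG : S_DG := Pool.Agent.Q25.SG.dg b_PS b_AB
theorem b_CB : S_CB := Pool.Agent.Q248.SG.cb
theorem b_XF : S_XF := Pool.Agent.Q176.SG.xf
theorem b_KP : S_KP := Pool.Agent.Q222.SG.kp
theorem b_KU : S_KU := Pool.Agent.Q84.SG.ku
theorem b_CH : S_CH := Pool.Agent.Q251.SG.ch
theorem b_NP : S_NP := Pool.Agent.Q222.SG.np
theorem b_IG : S_IG := Pool.Agent.Q277.SG.ig
theorem b_IJ : S_IJ := Pool.Agent.Q14.SG.ij
theorem b_NR : S_NR := Pool.Agent.Q248.SG.nr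

end Pool.Agent.Q5.SH
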