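import Pool.Agent.Q5.SH.Defs

/-!
# Project SH (helper5): characters of order `p ^ m` satisfying the Sigma-Leopoldt conjecture

GOAL.  Let `K` be a number field, `p` odd and unramified in `K`, `S` a place-closed set of embeddings of `K` in
`ℂ_p` which is big (`Big S`; true for the `p`-ordinary CM types of a CM field and for the set of all
embeddings), `m ≥ 1`, and `m = 1` or `S` is not the set of all embeddings.  Then there are infinitely many
cyclic extensions `H/K` of degree `p ^ m` such that no layer is bad (`¬ Bad S g 1 j` for `1 ≤ j ≤ m`): the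
Sigma-Leopoldt conjecture holds for all nontrivial characters of `H/K`, without any hypothesis on
Leopoldt's conjecture.

METHOD.  For a pair `(T, χ)` as in `Adm` and the extension `H` belonging to `χ`, a bad layer gives an element
of the Selmer group `Rg S T (p^(m-1) χ)` which is not a `p`-th power (Part A).  The Selmer group is made
smaller and smaller by adding well chosen primes to `T` (Parts B-D).  Part E: the extension `H` of `χ`.

Notations: `Pool.Agent.Q5.SH.Defs` (`OneAt`, `UnitAt`, `IsX`, `Loc`, `BT`, `PW`, `RamAt`, `Adm`, `CL2`, `Qg`, `Rg`, `PSet`,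
`NQ`, `Big`, `NormKill`, `InTriv`, with lemmas `mem_...`), `Pool.Agent.Q5.SG.Defs` (`Cl`, `CU`, `Bad`, `PlaceClosed`),
`Pool.Agent.Q92.AR.Def` (divisors `Dv`, `prin`, norms `nmD`, `nu`, Artin map `art`).
All statements `S_..` of the project SG (`Pool.Agent.Q5.SG.Stm`, `Stm2`), of AR and EX are PROVED and may be
used: import `Pool.Agent.Q5.SH.Base` (theorems `b_SM : S_SM`, `b_PW : S_PW`, ...), `Pool.Agent.Q92.AR.All`,
`Pool.Agent.Q20.EX.All`.  `Pool.Agent.Q128.AR.val_prin`: `v.valuation K x = exp (-(prin x v))`.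
APPROXIMATION is used everywhere: for finitely many different primes `v_i`, `a_i ∈ Kˣ` and `k` there is an
`x ∈ Kˣ` with `v_i(x / a_i - 1) < exp (-k)` for all `i` (Chinese remainder theorem in `𝓞 K`; many versions are in
the library, search `approx`, `exists_unit_approx` in `Pool/Agent/Q*/SG`, `Pool/Agent/Q*/EX`, `Pool/Agent/Q*/AR`).
-/

set_option autoImplicit false
set_option linter.unusedSectionVars false

namespace Pool.Agent.Q5.SH

open NumberField IsDedekindDomain Module Pool.Agent.Y18.LC Pool.Agent.Q5.SG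
open Pool.Agent.Q92.AR (Dv prin Pr Ray RayD art nmD nu Cong Pos frob IsFrobenius Unramified SupF)

/-! ## Part A: bad layers and the Selmer group -/

/-- JOB SH-CA.  A bad layer gives `b ∈ Kˣ`.
Proof.  Let `z ∈ CU S H 2` be as in `Bad`.  `CU S H 2 ⊆ CU S H 1` are stable under the Galois group (see the proof of
`S_BL`, `Pool.Agent.Q224.SG.BL`).  Put `z_0 = z`, `z_(k+1) = g z_k / z_k`.  All `z_k` are in `CU S H 2`, fixed by
`g^(p^j)`, and of relative norm `∏_{i<p} g^(i p^(j-1)) z_k = 1`.  `z_(p^j)` is a `p`-th power of an element of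
`CU S H 1`: `(X-1)^(p^j) = X^(p^j) - 1 + p h(X)` with `h ∈ ℤ[X]`, and `g^(p^j) z / z = 1`.  `z_0` is not such a `p`-th
power; so there is a `k` such that `v = z_k` is not a `p`-th power of an element of `CU S H 1`, but
`g v / v = y^p` with `y ∈ CU S H 1`.  `H` has no `p`-torsion in `Hˣ` (`Unram H p`, `p ≠ 2`: `no_torsion`,
`root_unique`, `eq_one_of_pow` of `Pool.Agent.Y18.LC`).  `∏_{i < p^j} g^i y = 1`, since its `p`-th power is
`g^(p^j) v / v = 1`; so the norm of `y` from `H` to `K` is `1` and by Hilbert 90 (Mathlib, cyclic case; or the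
cocycle version as in `Pool.Agent.Q222.SG.HB`) `y = g c / c`, `c ∈ Hˣ`; `g^(p^j) c / c = ∏_{i<p^j} g^i y = 1`.
`v / c^p` is fixed by `g`, so `v = b c^p`, `b ∈ Kˣ`.  `(b ∏_{i<p} g^(i p^(j-1)) c)^p = ∏ g^(i p^(j-1)) v = 1`, hence
`b ∏ ... = 1`.  If `b = k^p` then `v = (k c)^p`, `k c ∈ CU S H 1` by `S_RC` (`n = 1`), a contradiction. -/
def S_CA : Prop := ∀ (p : ℕ) [Fact p.Prime], p ≠ 2 → ∀ (K H : Type) [Field K] [NumberField K]
  [Field H] [NumberField H] [Algebra K H] [IsGalois K H], Unram H p →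
  ∀ (S : Set (K →+* ℂ_[p])) (g : H ≃ₐ[K] H), (∀ h : H ≃ₐ[K] H, h ∈ Subgroup.zpowers g) →
  ∀ (m j : ℕ), finrank K H = p ^ m → 1 ≤ j → j ≤ m → Bad S g 1 j →
  ∃ (b : Kˣ) (c v : Hˣ), v ∈ CU S H 2 ∧ Units.map (algebraMap K H).toMonoidHom b * c ^ p = v ∧
    g ^ p ^ j • c = c ∧ Units.map (algebraMap K H).toMonoidHom b *
      ∏ i ∈ Finset.range p, g ^ (i * p ^ (j - 1)) • c = 1 ∧
    g • c / c ∈ CU S H 1 ∧ ∀ k : Kˣ, k ^ p ≠ b

/-- JOB SH-TC.  The trace is onto modulo `p` if `p` is unramified.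
Proof.  Let `P` be a prime of `K` above `p`, `Q` a prime of `H` above `P`, `D` its decomposition group.  `Q` is
unramified over `P` (`Unram H p`: `Q^2` does not divide `p`), so `D` is isomorphic to the Galois group of the
residue fields (Mathlib: the inertia group has order `e = 1`), and the trace of the residue fields is onto:
there is an `a ∈ 𝓞 H` with `∑_{h ∈ D} h a ≡ 1 mod Q`, and by the Chinese remainder theorem `a` may be chosen in
all primes above `p` different from `Q`.  Then `∑_{h ∈ Gal} h a ≡ 1 mod Q` (for `h ∉ D`, `h a ∈ Q`, since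
`h⁻¹ Q ≠ Q`), so the trace of `a` is `≡ 1 mod P`, and `≡ 0` modulo the other primes of `K` above `p`.  Add these
`a` for all `P`: `t` with trace `≡ 1` modulo all `P ∣ p`.  So `‖σ(∑ h t) - 1‖ < 1` for all `σ`, and `≤ 1/p` by `S_SM`.
(Or: if the traces all lie in `P`, then `P⁻¹ 𝓞 H` lies in the dual for the trace form, so `P` divides the
different, and Mathlib's `differentIdeal` theorems show that primes above `P` are ramified.) -/
def S_TC : Prop := ∀ (p : ℕ) [Fact p.Prime] (K H : Type) [Field K] [NumberField K]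
  [Field H] [NumberField H] [Algebra K H] [IsGalois K H], Unram H p →
  ∃ t : 𝓞 H, ∀ σ : H →+* ℂ_[p], ‖σ (∑ h : H ≃ₐ[K] H, h (t : H)) - 1‖ ≤ (p : ℝ)⁻¹

/-- JOB SH-LS.  `b` is above `S` near to a `p`-th power of `Kˣ`.
Proof.  Every `h` is a power `g^i`, and `h c / c = ∏_{l<i} g^l (g c / c) ∈ CU S H 1` (`CU` is stable under the
group).  If `S` is empty take `k = 1`.  Let `t` be as in `S_TC` and `k = ∑_h h(t c)`, an element of `K`.  For `σ`
above `S`, `σ(k/c) = ∑_h σ(h t) σ(h c / c) = σ(∑ h t) + ∑_h σ(h t) (σ(h c/c) - 1)`, so `‖σ(k/c) - 1‖ ≤ 1/p`; in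
particular `k ≠ 0`.  `b k^p = v (k/c)^p`, and `‖σ((k/c)^p) - 1‖ ≤ 1/p^2` by `S_PW`, `‖σ v - 1‖ ≤ 1/p^2`.  So `b k^p` is
`p^2`-close to `1` in `H`, and in `K` by `S_EX`. -/
def S_LS : Prop := ∀ (p : ℕ) [Fact p.Prime], p ≠ 2 → ∀ (K H : Type) [Field K] [NumberField K]
  [Field H] [NumberField H] [Algebra K H] [IsGalois K H], Unram H p →
  ∀ (S : Set (K →+* ℂ_[p])) (g : H ≃ₐ[K] H), (∀ h : H ≃ₐ[K] H, h ∈ Subgroup.zpowers g) →
  ∀ (b : Kˣ) (c v : Hˣ), v ∈ CU S H 2 → Units.map (algebraMap K H).toMonoidHom b * c ^ p = v →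
  g • c / c ∈ CU S H 1 → ∃ k : Kˣ, Cl S 2 ((b * k ^ p : Kˣ) : K)

/-- what the job LS has to prove -/
def J_LS : Prop := S_TC → S_LS

/-- JOB SH-NL.  A norm from the layer `j` to the layer `j - 1` is killed by the local components of
`p^(m-1) χ`.
Proof.  Let `E` be the subfield fixed by `g^(p^j)` (degree `p^j` over `K`), `c ∈ Eˣ`.  By approximation choose
`c' ∈ Eˣ` with `c'/c ≡ 1` at all primes of `E` above `v`, `c' ≡ 1` at the primes of `E` above the other primes of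
`T`, and `e ∈ Kˣ` with `e / b ≡ 1` at `v` and `e ≡ 1` at the other primes of `T`.  Put
`x = e ∏_{i<p} g^(i p^(j-1)) c'`, fixed by `g^(p^(j-1))`.  At the primes of `H` above `v`,
`x ≡ b ∏_{i<p} g^(i p^(j-1)) c = 1`, and `x ≡ 1` at the primes above the other primes of `T`.  So
`N = ∏_{l < p^(j-1)} g^l x ∈ Kˣ` is `≡ 1` at all primes of `T` and `χ(prin N) = 0`.  But
`N = e^(p^(j-1)) ∏_{i<p^j} g^i c'`, and `∏_{i<p^j} g^i c'` is the norm `nu K E c'`.  Multiply by `p^(m-j)`: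
`0 = p^(m-1) χ(prin e) + p^(m-j) χ(nmD K E (prin c'))` (`S_Nm` (1), `Pool.Agent.Q106.AR.nm`), and the last
term is `0` by `NormKill`. -/
def S_NL : Prop := ∀ (p : ℕ) [Fact p.Prime] (K H : Type) [Field K] [NumberField K]
  [Field H] [NumberField H] [Algebra K H] [IsGalois K H]
  (g : H ≃ₐ[K] H), (∀ h : H ≃ₐ[K] H, h ∈ Subgroup.zpowers g) →
  ∀ (m j : ℕ), finrank K H = p ^ m → 1 ≤ j → j ≤ m →
  ∀ (T : Finset (HeightOneSpectrum (𝓞 K))) (χ : Dv K →+ Additive ℂˣ), IsX T (p ^ m) χ →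
  NormKill p m χ H → ∀ (b : Kˣ) (c : Hˣ), g ^ p ^ j • c = c →
  Units.map (algebraMap K H).toMonoidHom b *
      ∏ i ∈ Finset.range p, g ^ (i * p ^ (j - 1)) • c = 1 →
  ∀ v ∈ T, b ∈ Loc T (p ^ (m - 1) • χ) v

/-- JOB SH-CRIT.  **The criterion**: if all elements of the Selmer group are `p`-th powers, no layer of `H/K` is
bad.
Proof.  `Unram H p` by `S_UH` (primes above `p` are not in `T`).  Suppose `Bad S g 1 j`; `S_CA` gives `b, c, v`, `S_LS` a
`k`, put `b' = b k^p`.  `b'` is in `Rg S T (p^(m-1) χ)`: `Cl S 2 b'`; for `v ∉ T`, `p ∣ prin b v` by `S_DV` (`N = p`) and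
`val_prin`, and `p ∣ prin (k^p) v`; `b ∈ Loc` by `S_NL`, and `k^p ∈ Loc T (p^(m-1) χ) v`: choose by approximation
`e ∈ Kˣ` with `e/k ≡ 1` at `v` and `e ≡ 1` at the other primes of `T`; `p^(m-1) χ(prin e^p) = p^m χ(prin e) = 0`.  So
`b' = k'^p` and `b` is a `p`-th power, a contradiction. -/
def S_CRIT : Prop := ∀ (p : ℕ) [Fact p.Prime], p ≠ 2 → ∀ (K H : Type) [Field K] [NumberField K]
  [Field H] [NumberField H] [Algebra K H] [IsGalois K H], Unram K p →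
  ∀ (S : Set (K →+* ℂ_[p])) (g : H ≃ₐ[K] H), (∀ h : H ≃ₐ[K] H, h ∈ Subgroup.zpowers g) →
  ∀ (m : ℕ), 1 ≤ m → finrank K H = p ^ m →
  ∀ (T : Finset (HeightOneSpectrum (𝓞 K))) (χ : Dv K →+ Additive ℂˣ), IsX T (p ^ m) χ →
  (∀ v ∈ T, (p : 𝓞 K) ∉ v.asIdeal) → NormKill p m χ H →
  (∀ v : HeightOneSpectrum (𝓞 K), v ∉ T → Unramified H v) →
  Rg S T (p ^ (m - 1) • χ) ≤ PW K p → Unram H p ∧ ∀ j : ℕ, 1 ≤ j → j ≤ m → ¬ Bad S g 1 j

/-- what the job CRIT has to prove -/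
def J_CRIT : Prop := S_CA → S_LS → S_NL → S_CRIT

/-! ## Part B: the order of `Dv / NQ` -/

/-- JOB SH-GB.  Many classes of `Kˣ` modulo `Qg` and `p`-th powers.
Proof.  Let `P_1, ..., P_s` be the primes of `PSet S` (finite: they contain `p`; they are the primes containing
`I`, since the ideal `I` is the intersection of the `P_i`, by `PlaceClosed` and `S_AB`, `S_PS`), `π_i` of order `1` at
`P_i`; for `v ∈ T` let `u_v` be as in `RamAt` (`m = 1`).  The element `x = x(a, β, c)`, `a ∈ {0..p-1}^s`, `β` in a set of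
representatives of `𝓞 K / I`, `c ∈ {0..p-1}^T`, is chosen by approximation: near `P_i`,
`x ≡ π_i^(a_i) (1 + p β)` (so closely that `‖σ(x / (π_i^(a_i) (1+pβ))) - 1‖ ≤ p^(-2)` for the `σ` of `P_i`), and at
`v ∈ T`, `x / u_v^(c_v) ≡ 1`.  Let `x / x' = q k^p` with `q ∈ Qg`, `x' = x(a', β', c')`.
(1) At `P_i` the orders give `p ∣ a_i - a'_i` (`q` is a unit there), so `a = a'`.  (2) For all `σ ∈ S`:
`σ((1+pβ)/(1+pβ')) σ(k)^(-p)` is `p^(-2)`-close to `1`; so `‖σ k‖ = 1`, `‖σ k - 1‖ < 1` (`S_RT`), `≤ 1/p` (`S_SM`), and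
`‖σ k^p - 1‖ ≤ p^(-2)` (`S_PW`), so `‖σ(β - β')‖ < 1`: `β - β' ∈ I`.  (3) At `v ∈ T`: `q ∈ Loc T χ v` and
`k^p ∈ Loc T χ v` (approximate `k`, `p χ = 0`), so `x/x' ∈ Loc T χ v`, and `u_v^(c_v - c'_v) ∈ Loc T χ v`; since
`χ(prin u_v) ≠ 0` has order `p`, `c_v = c'_v` (if `u ∈ UnitAt v`, `u ≡ 1` at the other primes of `T`, then
`u ∈ Loc T χ v` implies `χ(prin u) = 0`, because `e/u ≡ 1` at all primes of `T`). -/
def S_GB : Prop := ∀ (p : ℕ) [Fact p.Prime], p ≠ 2 → ∀ (K : Type) [Field K] [NumberField K],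
  Unram K p → ∀ (S : Set (K →+* ℂ_[p])), PlaceClosed S → ∀ (I : Ideal (𝓞 K)),
  (∀ a : 𝓞 K, a ∈ I ↔ ∀ σ ∈ S, ‖σ (a : K)‖ < 1) →
  ∀ (T : Finset (HeightOneSpectrum (𝓞 K))) (χ : Dv K →+ Additive ℂˣ), IsX T p χ →
  (∀ v ∈ T, RamAt T χ p 1 v) → (∀ v ∈ T, (p : 𝓞 K) ∉ v.asIdeal) →
  (PSet S).Finite ∧ ∃ X : Finset Kˣ, p ^ (T.card + (PSet S).ncard) * Ideal.absNorm I ≤ X.card ∧
    ∀ x ∈ X, ∀ y ∈ X, x / y ∈ Qg S T χ ⊔ PW K p → x = y

/-- JOB SH-WU.  A finite set `W` of primes generating the class group, and the `W`-units modulo `p`.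
Proof.  Choose `W ⊇ V` such that every divisor is equivalent to one supported in `W` (finiteness of the class
group, e.g. `all_Fin` for `N = 1` or Mathlib's `ClassGroup`).  If `b ∈ BT W p`, `prin b = p D + D_W`, `D = prin k + D'_W`,
so `b / k^p` is a `W`-unit.  So `BT W p` is generated by the group `U_W` of the `W`-units and the `p`-th powers of
`Kˣ`.  `U_W` modulo the units is a subgroup of `ℤ^W`, so free of rank `≤ #W`, and the units are a product of the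
roots of unity, whose order is prime to `p` (`no_torsion`), and a free group of rank `r`; so `U_W / U_W^p` has at
most `p^(r + #W)` elements (compare the proof of `S_UNT` of the project EX). -/
def S_WU : Prop := ∀ (p : ℕ) [Fact p.Prime], p ≠ 2 → ∀ (K : Type) [Field K] [NumberField K],
  Unram K p → ∀ V : Finset (HeightOneSpectrum (𝓞 K)), ∃ W : Finset (HeightOneSpectrum (𝓞 K)), V ⊆ W ∧
  (∀ D : Dv K, ∃ x : Kˣ, D - prin x ∈ SupF K (W : Set (HeightOneSpectrum (𝓞 K)))) ∧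
  ∃ X : Finset Kˣ, X.card ≤ p ^ (NumberField.Units.rank K + W.card) ∧
    ∀ b ∈ BT W p, ∃ x ∈ X, ∃ k : Kˣ, b = x * k ^ p

/-- JOB SH-CG.  Counting lemma for abelian groups.
Proof.  `N = p D + V' + P(Q)`.  Consider `f : A × W' → D / N`, `(a, d) ↦ P a + d`; it is onto.  It is defined on
`X × Y`, `X` the given set in `A` (different modulo `Q + pA`), `Y` a set of representatives of `W'` modulo
`V' + p W'` (the classes are given by `Y`).  Let `(x, y)`, `(x', y')` in `X × Y` have the same image.  Then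
`P(x - x') + (y - y') = p d + v + P q`, so `b = x - x' - q ∈ B = {a : ∃ d, P a - p d ∈ W'}`.  The pair `(x', y')`
is determined by `(x, y)` and the class of `b` modulo `p A + R`: if `b' = x - x'' - q'` for another pair
`(x'', y'')` with the same image and `b - b' ∈ pA + R`, `R = {q ∈ Q : ∃ d, P q - p d ∈ V'} ⊆ Q`, then
`x' - x'' ∈ Q + p A`, so `x' = x''`, and (`b - b' = r + p a`) `y' - y'' ∈ V' + p D ∩ W'`, which is `V' + p W'` by
the hypothesis on `W'`, so `y' = y''`.  The number of the classes of `B` modulo `pA + R` is at most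
`#Z / #(R / R ∩ pA)`, where `Z` represents `B` modulo `p A`.  So every fibre of `f` on `X × Y` has at most
`#Z / r0` elements, `r0 = #(R/(R ∩ pA))`, and `#X #Y ≤ [D : N] #Z / r0`. -/
def S_CG : Prop := ∀ (p : ℕ), p.Prime → ∀ (A D : Type) [AddCommGroup A] [AddCommGroup D] (P : A →+ D)
  (Q : AddSubgroup A) (W' V' N : AddSubgroup D) (R : AddSubgroup A), V' ≤ W' →
  (∀ d : D, ∃ a : A, d - P a ∈ W') → (∀ d : D, p • d ∈ W' → d ∈ W') →
  (∀ d : D, d ∈ N ↔ ∃ q ∈ Q, ∃ x : D, ∃ v ∈ V', d = P q + p • x + v) →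
  (∀ a : A, a ∈ R ↔ a ∈ Q ∧ ∃ d : D, P a - p • d ∈ V') → N.index ≠ 0 →
  ∀ (X Z : Finset A) (Y : Finset D),
  (∀ x ∈ X, ∀ y ∈ X, (∃ q ∈ Q, ∃ a : A, x - y = q + p • a) → x = y) →
  (∀ y ∈ Y, y ∈ W') → (∀ x ∈ Y, ∀ y ∈ Y, (∃ v ∈ V', ∃ w ∈ W', x - y = v + p • w) → x = y) →
  (∀ a : A, (∃ d : D, P a - p • d ∈ W') → ∃ z ∈ Z, ∃ c : A, a = z + p • c) →
  (AddMonoidHom.range (p • AddMonoidHom.id A)).relIndex R ≠ 0 ∧
  X.card * Y.card * (AddMonoidHom.range (p • AddMonoidHom.id A)).relIndex R ≤ N.index * Z.card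

/-- JOB SH-FI.  `NQ` has finite index, and it contains the divisors of a ray group.
Proof.  `N = p^2 ∏_{v ∈ T} N(v)`.  If `x ∈ Ray K N`, then for `σ ∈ S`, `‖σ x - 1‖ ≤ p^(-2)` (see `cl_of_cong` in
`Pool.Agent.Q5.SG.Asm`, with `S_VL`), and `x ≡ 1` at `v ∈ T` (`N(v) ∈ v`), so `x ∈ Loc T χ v` with `e = 1`: `x ∈ Qg`.
Index: by `all_Fin` (`S_Fin`) `RayD K N` has finite index in `Pr K N`, and `Dv / Pr K N` is `ℤ^s` (`s` primes
divide `N`), and `NQ` contains `p Dv`. -/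
def S_FI : Prop := ∀ (p : ℕ) [Fact p.Prime] (K : Type) [Field K] [NumberField K]
  (S : Set (K →+* ℂ_[p])) (T : Finset (HeightOneSpectrum (𝓞 K))) (χ : Dv K →+ Additive ℂˣ),
  IsX T p χ → (NQ S T χ).index ≠ 0 ∧ ∃ N : ℕ, N ≠ 0 ∧ ∀ x ∈ Ray K N, x ∈ Qg S T χ

/-- JOB SH-CNT.  **The order of `Dv / NQ`.**
Proof.  `S_CG` for `A = Additive Kˣ`, `D = Dv K`, `P = prinHom`, `Q = Qg`, `V = T ∪ PSet S` (disjoint, `#V = #T + #PSet`,
since `PSet` consists of primes above `p`), `W` from `S_WU`, `W' = SupF W`, `V' = SupF V`, `N = NQ S T χ` (`S_FI`),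
`R = Rg` (`P a - p d ∈ SupF V` for some `d` if and only if `p ∣ prin a v` for `v ∉ V`; for `a ∈ Qg` the order at
the primes of `PSet S` is `0`, so this is `a ∈ BT T p`), `X` from `S_GB`, `Z` from `S_WU`, `Y` the divisors with
coefficients in `{0..p-1}` supported in `W \ V`, `#Y = p^(#W - #V)`.  So
`p^(#V) N(I) p^(#W - #V) r0 ≤ [Dv : NQ] p^(r + #W)`, `r0 = #(Rg / p-th powers)`, and with `N(I) ≥ p^(r+1)` the claim
follows. -/
def S_CNT : Prop := ∀ (p : ℕ) [Fact p.Prime], p ≠ 2 → ∀ (K : Type) [Field K] [NumberField K],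
  Unram K p → ∀ (S : Set (K →+* ℂ_[p])), PlaceClosed S → Big S →
  ∀ (T : Finset (HeightOneSpectrum (𝓞 K))) (χ : Dv K →+ Additive ℂˣ), IsX T p χ →
  (∀ v ∈ T, RamAt T χ p 1 v) → (∀ v ∈ T, (p : 𝓞 K) ∉ v.asIdeal) →
  (PW K p).relIndex (Rg S T χ) ≠ 0 ∧ p * (PW K p).relIndex (Rg S T χ) ≤ (NQ S T χ).index

/-- what the job CNT has to prove -/
def J_CNT : Prop := S_GB → S_WU → S_CG → S_FI → S_CNT

/-! ## Part C: selection of primes -/

/-- JOB SH-MV.  Moving divisors modulo `NQ`.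
Proof.  For `v ∣ N'`: if `v ∈ T ∪ PSet S` the multiples of `v` are in `NQ`.  Choose by approximation `x ∈ Kˣ` with
`‖σ x - 1‖ ≤ p^(-2)` for `σ ∈ S` (`x` near `1` at the primes of `PSet S`), `x ≡ 1` at `T`, and of order `D v` at the
other primes `v ∣ N'`; `x ∈ Qg`, and `D - prin x` has no component at these `v`.  (`S` need not be place-closed if
one takes `x` near `1` at the primes of the `σ ∈ S`, which are in `PSet S`.) -/
def S_MV : Prop := ∀ (p : ℕ) [Fact p.Prime] (K : Type) [Field K] [NumberField K]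
  (S : Set (K →+* ℂ_[p])) (T : Finset (HeightOneSpectrum (𝓞 K))) (χ : Dv K →+ Additive ℂˣ),
  IsX T p χ → ∀ N' : ℕ, N' ≠ 0 → ∀ D : Dv K, ∃ D' ∈ Pr K N', D - D' ∈ NQ S T χ

/-- JOB SH-TR1.  A trace which is prime to `p`, in an ideal that does not lie in `(p)`.
Proof.  `p` is unramified in `K`, so the trace form of `𝓞 K / p` over `𝔽_p` is nondegenerate (`p` does not divide
the discriminant; Mathlib).  As `S` is place-closed and some `τ ∉ S`, there is an `a₀ ∈ 𝓞 K` with `‖σ a₀‖ < 1` for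
`σ ∈ S` and `a₀ ∉ p 𝓞 K` (`S_CR` with `a = 0`, `b = 1`); choose `c` with `Tr(a₀ c)` prime to `p`, `a = a₀ c`. -/
def S_TR1 : Prop := ∀ (p : ℕ) [Fact p.Prime] (K : Type) [Field K] [NumberField K], Unram K p →
  ∀ (S : Set (K →+* ℂ_[p])), PlaceClosed S → (∃ τ : K →+* ℂ_[p], τ ∉ S) →
  ∃ a : 𝓞 K, (∀ σ ∈ S, ‖σ (a : K)‖ < 1) ∧ ¬ (p : ℤ) ∣ Algebra.trace ℤ (𝓞 K) a

/-- JOB SH-NC.  **A character of `Dv / NQ` whose Artin character lives on the cyclotomic field is trivial.**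
Proof.  For `g ∈ Gal(M/K)` let `g ζ = ζ^κ(g)`, `κ(g) ∈ (ℤ/p^m)ˣ`; `κ` is a homomorphism, and by hypothesis `ψ(g)`
depends only on `κ(g)`.  For `v ∤ N'`, `κ(frob v) = N(v) mod p^m`.  `ψ(g)^p = 1` for all `g` (each `g` is a Frobenius
element of a `v ∤ N'`, `S_CB`, and `p v ∈ NQ`).
(1) `m = 1`: `κ(g)^(p-1) = 1`, so `ψ(g)^(p-1) = 1` and `ψ(g) = 1`.
(2) `m ≥ 2`: let `a` be as in `S_TR1`.  Choose by the Chinese remainder theorem `x ∈ 𝓞 K`, `x ≡ 1 + p a mod p^2` (at all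
primes above `p`), `x ≡ 1` at the primes of `T`, `x ≡ 1` at the other primes dividing `N'` and not `p`.  `x ∈ Qg`
(`‖σ(p a)‖ ≤ p^(-2)` by `S_SM`; `e = 1`), `prin x ∈ Pr K N'` if `p ∣ N'` (it does: `ζ ∈ M` and the primes above `p`
ramify in `K(ζ)`; if it were not, `x` is anyway a unit at the primes above `p`), so `art ψ (prin x) = 0`.  This is
`ψ(g_x)` with `g_x` a product of Frobenius elements and `κ(g_x) = ∏ N(v)^(v(x)) = |N_{K/ℚ}(x)| mod p^m`
(`Pool.Agent`: absolute norm of the principal ideal), `N_{K/ℚ}(x) ≡ 1 + p Tr(a) mod p^2`.  So `κ(g_x)^(2(p-1))` is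
`≡ 1 mod p` but not `mod p^2` (`p` odd), so it generates the group of the classes `≡ 1 mod p` in `(ℤ/p^m)ˣ`.  For
every `g`, `κ(g)^(p-1)` is in this group, so `κ(g)^(p-1) = κ(g_x)^i` and `ψ(g)^(p-1) = ψ(g_x)^i = 1`; with
`ψ(g)^p = 1`: `ψ(g) = 1`.
(3) So `ψ₀` is `0` on `Pr K N'`, and by `S_MV` everywhere. -/
def S_NC : Prop := ∀ (p : ℕ) [Fact p.Prime], p ≠ 2 → ∀ (K M : Type) [Field K] [NumberField K]
  [Field M] [NumberField M] [Algebra K M] [IsGalois K M], Unram K p → ∀ (S : Set (K →+* ℂ_[p])),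
  PlaceClosed S → ∀ (m : ℕ), 1 ≤ m → (m = 1 ∨ ∃ τ : K →+* ℂ_[p], τ ∉ S) →
  ∀ (T : Finset (HeightOneSpectrum (𝓞 K))) (χ : Dv K →+ Additive ℂˣ), IsX T p χ →
  (∀ v ∈ T, (p : 𝓞 K) ∉ v.asIdeal) → ∀ (ζ : M), IsPrimitiveRoot ζ (p ^ m) →
  ∀ (N' : ℕ), N' ≠ 0 → Pool.Agent.Q92.AR.Ram K M N' → ∀ (ψ₀ : Dv K →+ Additive ℂˣ),
  (∀ D ∈ NQ S T χ, ψ₀ D = 0) → ∀ (ψ : (M ≃ₐ[K] M) →* ℂˣ), (∀ D ∈ Pr K N', art ψ D = ψ₀ D) →
  (∀ g : M ≃ₐ[K] M, g ζ = ζ → ψ g = 1) → ψ₀ = 0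

/-- what the job NC has to prove -/
def J_NC : Prop := S_TR1 → S_MV → S_NC

/-- JOB SH-KS.  A field containing the `n`-th roots of the elements of `BT T n`.
Proof.  `BT T n` modulo `n`-th powers of `Kˣ` is finite: if `prin b = n D + D_T`, the class of `D` modulo the
divisors supported in `T` and principal divisors takes finitely many values, and if `b, b'` have the same
class, `b/b'` is a `T`-unit times an `n`-th power, and the `T`-units are finitely generated (compare `S_CQ`, `S_QF` of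
SG, `S_UNT` of EX).  Let `b_i` be representatives, `K'` a splitting field of `(X^n - 1) ∏ (X^n - b_i)`, and
`r (b_i k^n) = r_i k`. -/
def S_KS : Prop := ∀ (K : Type) [Field K] [NumberField K] (T : Finset (HeightOneSpectrum (𝓞 K)))
  (n : ℕ), 0 < n →
  (∃ X : Finset Kˣ, ∀ b ∈ BT T n, ∃ x ∈ X, x ∈ BT T n ∧ ∃ k : Kˣ, b = x * k ^ n) ∧
  ∃ (K' : Type) (_ : Field K') (_ : NumberField K') (_ : Algebra K K') (ζ : K') (r : Kˣ → K'),
    IsPrimitiveRoot ζ n ∧ ∀ b ∈ BT T n, r b ^ n = algebraMap K K' (b : K)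

/-- JOB SH-DU.  **Independence of the Kummer characters and the characters `ψ ∈ X`.**
Proof.  Let `G_ζ = {g : g ζ = ζ}`.  For `g ∈ G_ζ`, `b ∈ A`: `g(r b) = ζ^(k_b(g)) r b`; put `κ_b(g) = ξ^(k_b(g))`, a
character of `G_ζ`, multiplicative in `b`.
(1) Let `h ∈ Gal(M/K)`, `h ζ = ζ^κ`; for `g ∈ G_ζ`, `h g h⁻¹ ∈ G_ζ` and `κ_b(h g h⁻¹) = κ_b(g)^κ` (see `S_KU`,
`Pool.Agent.Q84.SG.KU`), and `ψ(h g h⁻¹) = ψ(g)` for `ψ ∈ X`.  `K` contains no primitive `p`-th root of unity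
(`no_torsion`), so there is an `h₀` with `κ₀ ≢ 1 mod p`.
(2) If `κ_b = ψ` on `G_ζ` then `κ_b(g)^(κ₀-1) = 1`, so `κ_b = 1` (the values have order dividing `p^m`), and `ψ = 1` by
hypothesis.
(3) If `κ_b = 1` then `b` is a `p^m`-th power in `Kˣ`: `s = r b` is fixed by `G_ζ`; `h₀ s = ζ^(c₀) s`; replace `s` by
`s ζ^i`, `i (κ₀ - 1) ≡ - c₀ mod p^m`, so that `h₀ s = s`.  For `h ∈ Gal(M/K)`, `h s = ζ^c s` (`s^(p^m) = b`); `h h₀` and
`h₀ h` agree on `ζ`, so `(h h₀)⁻¹ h₀ h ∈ G_ζ` and `h h₀ s = h₀ h s`, i.e. `ζ^c s = ζ^(κ₀ c) s`, so `(κ₀ - 1) c ≡ 0`,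
`h s = s`.  So `s ∈ K`, `b = s^(p^m)`.
(4) So on the subgroup `Γ = {κ_b ψ|G_ζ : b ∈ A, ψ ∈ X}` of the (finite) group of the characters of `G_ζ` the
homomorphism `θ(κ_b ψ) = e(b) ψ(g₀)` is well defined.  Extend it to all characters of `G_ζ` (`ℂˣ` is divisible);
by the duality of the finite abelian group `G_ζ / [G_ζ, G_ζ]` it is the evaluation at some `g ∈ G_ζ` (Mathlib:
duality of finite commutative groups, `CommGroup` ... `MulChar`/`monoidHom` duality; compare the proof of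
`S_TG`, `Pool.Agent.Q65.SG.TG`).  `κ_b(g) = e(b)` and `ψ(g) = ψ(g₀)`. -/
def S_DU : Prop := ∀ (p : ℕ) [Fact p.Prime], p ≠ 2 → ∀ (K M : Type) [Field K] [NumberField K]
  [Field M] [NumberField M] [Algebra K M] [IsGalois K M], Unram K p → ∀ (m : ℕ), 1 ≤ m →
  ∀ (ζ : M), IsPrimitiveRoot ζ (p ^ m) → ∀ (A : Subgroup Kˣ) (r : Kˣ → M),
  (∀ b ∈ A, r b ^ p ^ m = algebraMap K M (b : K)) → ∀ (X : Subgroup ((M ≃ₐ[K] M) →* ℂˣ)),
  (∀ ψ ∈ X, (∀ g : M ≃ₐ[K] M, g ζ = ζ → ψ g = 1) → ψ = 1) →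
  ∀ (ξ : ℂˣ), IsPrimitiveRoot ξ (p ^ m) → ∀ (e : Additive Kˣ →+ Additive ℂˣ),
  (∀ x, p ^ m • e x = 0) → ∀ g₀ : M ≃ₐ[K] M, ∃ g : M ≃ₐ[K] M, g ζ = ζ ∧ (∀ ψ ∈ X, ψ g = ψ g₀) ∧
  ∀ b ∈ A, ∀ k : ℕ, e (Additive.ofMul b) = k • Additive.ofMul ξ → g (r b) = ζ ^ k * r b

/-- JOB SH-KV.  The character `κ` of a prime `v`.
Proof.  `q = N(v)`, `w` a prime of `M` above `v` with `g y ≡ y^q mod w` (`IsFrobenius`).  `g ζ = ζ` gives
`ζ^(q-1) ≡ 1 mod w`, so `p^m ∣ q - 1` (`w ∤ p`).  The residue field of `v` is `𝔽_q`; for `x ∈ UnitAt v`,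
`x^((q-1)/p^m)` is modulo `w` a root of unity of order dividing `p^m`, so `≡ ζ^k(x) mod w` for a unique class
`k(x) mod p^m`, and `κ₀(x) = ξ^k(x)` is a homomorphism `UnitAt v → ℂˣ`, trivial on `OneAt v`, with values of order
`p^m` (primitive root modulo `v`).  Extend it to `Kˣ` by `κ(π) = 1` for a `π` with `prin π v = 1`.  For `b ∈ A` write
`b = x k^(p^m)` with `x ∈ X`; `x` is a unit at `v`; `g (r x) ≡ (r x)^q`, so `g(r x)/r x ≡ (r x)^(q-1) = x^((q-1)/p^m)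
mod w`, and if `e x = k ξ` then `g(r x) = ζ^k r x`, so `κ(x) = e(x)` (`e x` is a multiple of `ξ`, as `p^m e = 0`); and
both `κ` and `e` kill `p^m`-th powers. -/
def S_KV : Prop := ∀ (p : ℕ) [Fact p.Prime] (K M : Type) [Field K] [NumberField K]
  [Field M] [NumberField M] [Algebra K M] [IsGalois K M] (m : ℕ), 1 ≤ m →
  ∀ (ζ : M), IsPrimitiveRoot ζ (p ^ m) → ∀ (A : Subgroup Kˣ) (r : Kˣ → M),
  (∀ b ∈ A, r b ^ p ^ m = algebraMap K M (b : K)) →
  ∀ (X : Finset Kˣ), (∀ b ∈ A, ∃ x ∈ X, x ∈ A ∧ ∃ k : Kˣ, b = x * k ^ p ^ m) →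
  ∀ (ξ : ℂˣ), IsPrimitiveRoot ξ (p ^ m) → ∀ (e : Additive Kˣ →+ Additive ℂˣ),
  (∀ x, p ^ m • e x = 0) → ∀ g : M ≃ₐ[K] M, g ζ = ζ →
  (∀ b ∈ A, ∀ k : ℕ, e (Additive.ofMul b) = k • Additive.ofMul ξ → g (r b) = ζ ^ k * r b) →
  ∀ v : HeightOneSpectrum (𝓞 K), (Ideal.absNorm v.asIdeal).Prime → (p : 𝓞 K) ∉ v.asIdeal →
  (∀ x ∈ X, x ∈ UnitAt v) → Unramified M v → IsFrobenius v g →
  p ^ m ∣ Ideal.absNorm v.asIdeal - 1 ∧ ∃ κ : Additive Kˣ →+ Additive ℂˣ, (∀ x, p ^ m • κ x = 0) ∧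
    (∀ x ∈ OneAt v, κ (Additive.ofMul x) = 0) ∧
    (∃ u ∈ UnitAt v, p ^ (m - 1) • κ (Additive.ofMul u) ≠ 0) ∧
    ∀ b ∈ A, κ (Additive.ofMul b) = e (Additive.ofMul b)

/-- JOB SH-SEL.  **Selection of a prime** with given Kummer character on `BT T (p^m)` and given class in
`Dv / NQ`.
Proof.  `N` from `S_FI`; `X`, `K'`, `ζ`, `r` from `S_KS` (`n = p^m`); `M`, `N'` from `S_XF` for `K'`, `N`; view `ζ`, `r` in `M`.
Let `X₁` be the group of the characters `ψ` of `Gal(M/K)` for which there is a `ψ₀ : Dv K → ℂˣ` killing `NQ` with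
`art ψ = ψ₀` on `Pr K N'`.  By `S_NC`, `ψ ∈ X₁` trivial on `{g : g ζ = ζ}` has `ψ₀ = 0`, so `art ψ = 0` on `Pr K N'`,
and `ψ = 1` (every element is a Frobenius element of some `v ∤ N'`, `S_CB`).  By `S_MV` choose `D' ∈ Pr K N'` with
`D - D' ∈ NQ`, and `g₀ = ∏ frob(v)^(D' v)`, so `ψ(g₀) = art ψ D'` for all `ψ`.  `S_DU` gives `g`, `S_CB` infinitely many `v`
of prime norm with Frobenius element `g`, not in `B`, `T`, not above `p`, `N'`, not in the finite set of `S_NR`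
(`Unram K (N v)`), with all `x ∈ X` units at `v`; `S_KV` gives `κ`.  For every character `ψ₀` of `Dv` killing `NQ`
(it kills the divisors of `Ray K N`), `S_XF` gives `ψ ∈ X₁`, and `ψ₀(v) = ψ(frob v) = ψ(g) = ψ(g₀) = ψ₀(D') = ψ₀(D)`
(`g` and `frob M v` are conjugate).  The characters of the finite group `Dv / NQ` separate its points, so
`v - D ∈ NQ`. -/
def S_SEL : Prop := ∀ (p : ℕ) [Fact p.Prime], p ≠ 2 → ∀ (K : Type) [Field K] [NumberField K],
  Unram K p → ∀ (S : Set (K →+* ℂ_[p])), PlaceClosed S → ∀ (m : ℕ), 1 ≤ m →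
  (m = 1 ∨ ∃ τ : K →+* ℂ_[p], τ ∉ S) →
  ∀ (T : Finset (HeightOneSpectrum (𝓞 K))) (χ : Dv K →+ Additive ℂˣ), IsX T p χ →
  (∀ v ∈ T, (p : 𝓞 K) ∉ v.asIdeal) → ∀ (e : Additive Kˣ →+ Additive ℂˣ), (∀ x, p ^ m • e x = 0) →
  ∀ (D : Dv K) (B : Set (HeightOneSpectrum (𝓞 K))), B.Finite →
  ∃ v : HeightOneSpectrum (𝓞 K), v ∉ B ∧ v ∉ T ∧ (Ideal.absNorm v.asIdeal).Prime ∧
    Unram K (Ideal.absNorm v.asIdeal) ∧ (p : 𝓞 K) ∉ v.asIdeal ∧
    Finsupp.single v 1 - D ∈ NQ S T χ ∧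
    ∃ κ : Additive Kˣ →+ Additive ℂˣ, (∀ x, p ^ m • κ x = 0) ∧
      (∀ x ∈ OneAt v, κ (Additive.ofMul x) = 0) ∧
      (∃ u ∈ UnitAt v, p ^ (m - 1) • κ (Additive.ofMul u) ≠ 0) ∧
      ∀ b ∈ BT T (p ^ m), κ (Additive.ofMul b) = e (Additive.ofMul b)

/-- what the job SEL has to prove -/
def J_SEL : Prop := S_FI → S_KS → S_MV → S_NC → S_DU → S_KV → S_SEL

/-- JOB SH-EE.  Characters of `Kˣ` detecting an element which is not a `p`-th power.
Proof.  `b^(p^(m-1))` is not a `p^m`-th power: if it is `k^(p^m)` then `(b/k^p)^(p^(m-1)) = 1`, so `b = k^p` (no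
`p`-torsion, `no_torsion`; `p ≠ 2`, `Unram K p`).  So there is a character of `Kˣ/(Kˣ)^(p^m)` with values in the
divisible group `ℂˣ` which is nontrivial on `b^(p^(m-1))` (first define it on the cyclic group generated by this
class, then extend it; compare the proofs of `S_CX`, `S_CH`). -/
def S_EE : Prop := ∀ (p : ℕ) [Fact p.Prime], p ≠ 2 → ∀ (K : Type) [Field K] [NumberField K],
  Unram K p → ∀ (m : ℕ), 1 ≤ m → ∀ b : Kˣ, b ∉ PW K p → ∃ e : Additive Kˣ →+ Additive ℂˣ,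
  (∀ x, p ^ m • e x = 0) ∧ p ^ (m - 1) • e (Additive.ofMul b) ≠ 0

/-! ## Part D: enlarging `T` -/

/-- JOB SH-EXT.  Extension of characters.
Proof.  Let `Dv'` be the group of the divisors without component at `V` (a direct summand of `Dv K`),
`P = {prin x + D_T + p^m D : x a unit at all v ∈ V, D_T supported in T, D ∈ Dv'} ⊆ Dv'`.  Put
`ψ(prin x + D_T + p^m D) = κ(x)`; this is well defined: if `prin x + D_T + p^m D = 0` then `x ∈ BT T (p^m)` (at
`v ∈ V` the component of `prin x` is `0`), so `κ(x) = 0`.  `ψ` kills `p^m Dv'`; extend it from `P / p^m Dv'` to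
`Dv' / p^m Dv'` (`ℂˣ` is divisible) and by zero to `Dv K`.  So `p^m ψ = 0`, `ψ(v) = 0` for `v ∈ T ∪ V`,
`ψ(prin x) = κ(x)` for `x` a unit at `V`.  `χ' = χ_0 + ψ`, `χ_0` equal to `χ` on `Dv'` and `0` at `V`. -/
def S_EXT : Prop := ∀ (K : Type) [Field K] [NumberField K] [DecidableEq (HeightOneSpectrum (𝓞 K))]
  (q : ℕ) (T V : Finset (HeightOneSpectrum (𝓞 K))) (χ : Dv K →+ Additive ℂˣ), 0 < q → IsX T q χ →
  Disjoint T V → ∀ κ : Additive Kˣ →+ Additive ℂˣ, (∀ x, q • κ x = 0) →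
  (∀ x : Kˣ, (∀ v ∈ V, x ∈ OneAt v) → κ (Additive.ofMul x) = 0) →
  (∀ b ∈ BT T q, κ (Additive.ofMul b) = 0) →
  ∃ χ' : Dv K →+ Additive ℂˣ, IsX (T ∪ V) q χ' ∧
    ∀ x : Kˣ, (∀ v ∈ V, x ∈ UnitAt v) → χ' (prin x) = χ (prin x) + κ (Additive.ofMul x)

/-- JOB SH-NEW.  **Adding primes to `T`.**
Proof.  `κ = ∑_{v ∈ V} κ_v`, `χ'` from `S_EXT` (`q = p^m`).  By approximation all elements below can be changed at
finitely many primes.
(1) `RamAt` at `v ∈ T`: let `u` be the element for `χ`, `u' ≡ u` at `v` and `≡ 1` at the other primes of `T` and at `V`;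
`u'/u ≡ 1` at `T`, `κ(u') = 0`, so `χ'(prin u') = χ(prin u)`.  (2) `RamAt` at `v ∈ V`: `u` from the hypothesis on `κ_v`,
`u' ≡ u` at `v` and `≡ 1` at the other primes of `T ∪ V`: `χ(prin u') = 0`, `κ(u') = κ_v(u') = κ_v(u)`.
(3) Let `b ∈ Rg S (T ∪ V) (p^(m-1) χ')`.  For `v ∈ T`: `e` with `e/b ≡ 1` at `v`, `e ≡ 1` at the other primes of `T ∪ V`
and `p^(m-1) χ'(prin e) = 0`; `κ(e) = 0`, so `p^(m-1) χ(prin e) = 0`: `b ∈ Loc T (p^(m-1) χ) v`.  So `b ∈ Qg S T ..`, and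
`prin b - ∑_{v ∈ V} (prin b v) v` is divisible by `p` outside `T`, so `∑_{v ∈ V} (prin b v) v ∈ NQ S T ..`.
(4) If `p ∣ prin b v` for all `v ∈ V` then `b ∈ BT T p`, `b ∈ Rg S T ..`.  Let `v ∈ V`; choose `k ∈ Kˣ` with
`p (prin k v) = prin b v` and let `e` be as in `Loc (T ∪ V) (p^(m-1) χ') v` for `b`, `k' ∈ Kˣ` near `k` at `v` and `≡ 1` at
the other primes of `T ∪ V`.  `e' = e / k'^p` is a unit at `V`, `≡ 1` at the primes of `T ∪ V` other than `v`, so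
`χ(prin e') = 0`, and `0 = p^(m-1) χ'(prin e) - p^m χ'(prin k') = p^(m-1) χ'(prin e') = p^(m-1) κ(e') =
p^(m-1) κ_v(e') = p^(m-1) κ_v(b)` (`κ_v(e/b) = 0`, and `p^(m-1) κ_v(k'^p) = 0`). -/
def S_NEW : Prop := ∀ (p : ℕ) [Fact p.Prime] (K : Type) [Field K] [NumberField K]
  [DecidableEq (HeightOneSpectrum (𝓞 K))] (S : Set (K →+* ℂ_[p])) (m : ℕ), 1 ≤ m →
  ∀ (T V : Finset (HeightOneSpectrum (𝓞 K))) (χ : Dv K →+ Additive ℂˣ), Adm p m T χ →
  Disjoint T V → (∀ v ∈ V, (Ideal.absNorm v.asIdeal).Prime ∧ Unram K (Ideal.absNorm v.asIdeal) ∧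
    (p : 𝓞 K) ∉ v.asIdeal) →
  ∀ κ : HeightOneSpectrum (𝓞 K) → Additive Kˣ →+ Additive ℂˣ,
  (∀ v ∈ V, (∀ x, p ^ m • κ v x = 0) ∧ (∀ x ∈ OneAt v, κ v (Additive.ofMul x) = 0) ∧
    ∃ u ∈ UnitAt v, p ^ (m - 1) • κ v (Additive.ofMul u) ≠ 0) →
  (∀ b ∈ BT T (p ^ m), ∑ v ∈ V, κ v (Additive.ofMul b) = 0) →
  ∃ χ' : Dv K →+ Additive ℂˣ, Adm p m (T ∪ V) χ' ∧ ∀ b ∈ Rg S (T ∪ V) (p ^ (m - 1) • χ'),
    (∑ v ∈ V, Finsupp.single v (prin b v) : Dv K) ∈ NQ S T (p ^ (m - 1) • χ) ∧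
    ((∀ v ∈ V, (p : ℤ) ∣ prin b v) → b ∈ Rg S T (p ^ (m - 1) • χ) ∧
      ∀ v ∈ V, p ^ (m - 1) • κ v (Additive.ofMul b) = 0)

/-- what the job NEW has to prove -/
def J_NEW : Prop := S_EXT → S_NEW

/-- JOB SH-ST.  **The two steps.**
Proof.  Put `χ₁ = p^(m-1) χ` (`IsX T p χ₁`, `RamAt T χ₁ p 1 v`), `C = Dv / NQ S T χ₁`, a finite group of exponent `p`, of
order at least `p r0`, `r0 = #(Rg / p-th powers)` by `S_CNT`.
(1) If `Rg ⊆ PW`: `C ≠ 0`, choose `D ∉ NQ`; `S_SEL` with `e = 0` gives `v`, `κ`; `V = {v}`, `S_NEW`.  For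
`b ∈ Rg S (T ∪ V) ..`, `(prin b v) v ∈ NQ`, and `v - D ∈ NQ`, so `(prin b v) D ∈ NQ`, and as `p D ∈ NQ`, `D ∉ NQ`,
`p ∣ prin b v`, so `b ∈ Rg S T .. ≤ PW`.
(2) If `Rg` is not contained in `PW`: `r0 ≥ p` (a power of `p` bigger than `1`; `Rg/(Rg ∩ PW)` has exponent `p`), so
`#C ≥ p^2` and there are `D, D'` with: `x D + y D' ∈ NQ` implies `p ∣ x`, `p ∣ y` (`D ∉ NQ`; `D'` not in the group
generated by `NQ` and `D`, whose index is at least `p`).  Let `b₀ ∈ Rg`, `b₀ ∉ PW`, `e` from `S_EE`.  `S_SEL` gives `v`, `κ`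
for `D`, `e`, and `v' ≠ v`, `κ'` for `D'`, `e`.  `V = {v, v'}`, `κ_v = κ`, `κ_(v') = - κ'`; `κ_v + κ_(v') = 0` on
`BT T (p^m)`.  `S_NEW`: for `b ∈ Rg S (T ∪ V) ..`, `(prin b v) v + (prin b v') v' ∈ NQ`, so
`(prin b v) D + (prin b v') D' ∈ NQ`, so `p` divides both, `b ∈ Rg S T ..` and `p^(m-1) κ(b) = 0`.  So
`Rg S (T ∪ V) .. ≤ Rg S T ..`, and `b₀ k^p` is not in it for any `k` with `b₀ k^p ∈ Rg S T ..`:
`p^(m-1) κ(b₀ k^p) = κ(b₀^(p^(m-1))) = e(b₀^(p^(m-1))) = p^(m-1) e(b₀) ≠ 0`, as `b₀^(p^(m-1)) ∈ BT T (p^m)` (`b₀ ∈ BT T p`).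
So the image of the new group in `Kˣ/PW` is strictly smaller, and `relIndex` decreases. -/
def S_ST : Prop := ∀ (p : ℕ) [Fact p.Prime], p ≠ 2 → ∀ (K : Type) [Field K] [NumberField K],
  Unram K p → ∀ (S : Set (K →+* ℂ_[p])), PlaceClosed S → Big S → ∀ (m : ℕ), 1 ≤ m →
  (m = 1 ∨ ∃ τ : K →+* ℂ_[p], τ ∉ S) →
  ∀ (T : Finset (HeightOneSpectrum (𝓞 K))) (χ : Dv K →+ Additive ℂˣ), Adm p m T χ →
  ∀ (B : Set (HeightOneSpectrum (𝓞 K))), B.Finite →
  ∃ (T' : Finset (HeightOneSpectrum (𝓞 K))) (χ' : Dv K →+ Additive ℂˣ), Adm p m T' χ' ∧ T'.Nonempty ∧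
    (∀ v ∈ T', v ∈ T ∨ v ∉ B) ∧
    (Rg S T (p ^ (m - 1) • χ) ≤ PW K p → Rg S T' (p ^ (m - 1) • χ') ≤ PW K p) ∧
    (¬ Rg S T (p ^ (m - 1) • χ) ≤ PW K p →
      (PW K p).relIndex (Rg S T' (p ^ (m - 1) • χ')) < (PW K p).relIndex (Rg S T (p ^ (m - 1) • χ)))

/-- what the job ST has to prove -/
def J_ST : Prop := S_CNT → S_SEL → S_EE → S_NEW → S_ST

/-! ## Part E: the extension belonging to `χ` -/

/-- JOB SH-LT.  An auxiliary extension `L/K` for two primes `t ≠ v`.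
Proof.  `q = N(t)`.  If `q ∉ v`: `L = K(ζ_q)` as in `S_LC` (`Pool.Agent.Q170.SG.lc`, totally ramified at `t`, degree
`q - 1`); an inertia element `g` of a prime `W ∣ v` maps `ζ` to `ζ^a ≡ ζ mod W`, so `ζ^(a-1) ≡ 1 mod W`, `ζ^a = ζ` (the
product of the `1 - ζ^i`, `0 < i < q`, is `q`, a unit at `W`).  If `q ∈ v`: `L = K(r)`, `r^(q-1) = y`, `y ∈ t \ t^2`,
`y ∉ v`, as in `S_LK` (`Pool.Agent.Q31.SG.lk`); for an inertia element `g` of `W ∣ v`, `g r = ω r`, `ω^(q-1) = 1`,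
`(ω - 1) r ∈ W`, `r` is a unit at `W`, so `ω ≡ 1 mod W`, and `ω = 1` since `q - 1` is a unit at `W` (`q ∈ W`). -/
def S_LT : Prop := ∀ (K : Type) [Field K] [NumberField K] (t v : HeightOneSpectrum (𝓞 K)), v ≠ t →
  (Ideal.absNorm t.asIdeal).Prime → Unram K (Ideal.absNorm t.asIdeal) →
  ∃ (L : Type) (_ : Field L) (_ : NumberField L) (_ : Algebra K L),
    finrank K L = Ideal.absNorm t.asIdeal - 1 ∧ TotRam t L ∧ InTriv K L v

/-- JOB SH-LL.  The same for finitely many primes `t ∈ T`.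
Proof.  Induction on `T`; `T = ∅`: `L = K`.  Let `L₁` be a field for `T` and `L₂` from `S_LT` for a new prime `t`.  Let
`L` be a composite: a number field with embeddings of `L₁`, `L₂` over `K` and generated by their images (e.g. in
an algebraic closure of `K`).  `InTriv` for `L`: for `Ω ⊇ L` and an inertia element `g`, `g` fixes the images of
`L₁` and `L₂`, which generate `L`.  Norms: `nu K L x = nu K L₁ (nu L₁ L x)`, and `nu L₁ L x` is a unit at the primes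
above `T` (the norm of a unit at all primes above a prime is a unit at it); the same for `L₂`: `y = nu L₂ L x` is
a unit at the primes above `t`, and by `S_NP` `nu K L₂ y ≡ y₀^(q-1) ≡ 1 mod t`, `q = N(t)` the order of the residue
field. -/
def S_LL : Prop := ∀ (K : Type) [Field K] [NumberField K] (T : Finset (HeightOneSpectrum (𝓞 K)))
  (v : HeightOneSpectrum (𝓞 K)), v ∉ T → (∀ t ∈ T, (Ideal.absNorm t.asIdeal).Prime) →
  (∀ t ∈ T, Unram K (Ideal.absNorm t.asIdeal)) →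
  ∃ (L : Type) (_ : Field L) (_ : NumberField L) (_ : Algebra K L), InTriv K L v ∧
    ∀ x : Lˣ, (∀ w : HeightOneSpectrum (𝓞 L), w.under (𝓞 K) ∈ T → w.valuation L (x : L) = 1) →
      ∀ t ∈ T, nu K L x ∈ OneAt t

/-- what the job LL has to prove -/
def J_LL : Prop := S_LT → S_LL

/-- JOB SH-BC.  Base change to `L`: a character modulo `T` is unramified at `v ∉ T`.
Proof.  As the proof of `S_BS` of SG (see its docstring in `Pool.Agent.Q5.SG.Stm2`).  Let `Ω/K` be a Galois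
number field containing `M` and `L` (with embeddings over `K`), `ψ_Ω` the inflation of `ψ`, `ψ_L` its restriction to
`Gal(Ω/L)`; `N''` a multiple of `N'` and of all `N(t)`, `t ∈ T`, with `Ram K Ω N''` (`Ram L Ω N''` follows).  For
`x ∈ Lˣ`, a unit at `N''`: `art ψ_L (prin x) = art ψ_Ω (nmD K L (prin x))` (`S_RES` of `Pool.Agent.Q20.EX.Stm2`, proved,
see `Pool.Agent.Q20.EX.All`) `= art ψ_Ω (prin (nu K L x)) = χ (prin (nu K L x)) = 0` (`S_FR` (1); `nu K L x ≡ 1` at `T`).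
So `TrivAt Set.univ N'' (art ψ_L)` and `Pool.Agent.Q53.EX.unr : S_UNR` (with `S_NRM`, `S_NCG`, `S_GOOD` proved in
`Pool.Agent.Q20.EX.All`) shows that `ψ_L` is trivial on all inertia groups of `Ω/L`.  An inertia element `g` of
`Gal(Ω/K)` at a prime `W` above `v` fixes `L` (`InTriv`), so it is an element of `Gal(Ω/L)` and `ψ_Ω(g) = 1`, and its
restriction to `M` is trivial, as `ψ` is injective.  Inertia elements of `Gal(M/K)` lift to inertia elements of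
`Gal(Ω/K)` (see `S_TRV2` and `Pool.Agent.Q277.SG.IG`), so `v` is unramified in `M`. -/
def S_BC : Prop := ∀ (K L M : Type) [Field K] [NumberField K] [Field L] [NumberField L]
  [Field M] [NumberField M] [Algebra K L] [Algebra K M] [IsGalois K M] (ψ : (M ≃ₐ[K] M) →* ℂˣ),
  Function.Injective ψ → ∀ N' : ℕ, N' ≠ 0 → Pool.Agent.Q92.AR.Ram K M N' →
  ∀ χ : Dv K →+ Additive ℂˣ, (∀ D ∈ Pr K N', art ψ D = χ D) →
  ∀ T : Finset (HeightOneSpectrum (𝓞 K)), (∀ x : Kˣ, (∀ t ∈ T, x ∈ OneAt t) → χ (prin x) = 0) →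
  (∀ x : Lˣ, (∀ w : HeightOneSpectrum (𝓞 L), w.under (𝓞 K) ∈ T → w.valuation L (x : L) = 1) →
    ∀ t ∈ T, nu K L x ∈ OneAt t) →
  ∀ v : HeightOneSpectrum (𝓞 K), InTriv K L v → Unramified M v

/-- JOB SH-UT.  A character modulo `T` is the Artin character of a character unramified outside `T`.
Proof.  `N = ∏_{t ∈ T} N(t)`; `χ` kills the divisors of `Ray K N` (`x ≡ 1` at all `t ∈ T`).  `all_EXI`
(`Pool.Agent.Q20.EX.All`) and `S_IJ` give `H`, an injective `ψ`, `N'` with `art ψ = χ` on `Pr K N'`, `Ram K H N'`.  By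
`S_LL` and `S_BC` every `v ∉ T` is unramified in `H`. -/
def S_UT : Prop := ∀ (K : Type) [Field K] [NumberField K]
  (T : Finset (HeightOneSpectrum (𝓞 K))) (χ : Dv K →+ Additive ℂˣ),
  (∀ t ∈ T, (Ideal.absNorm t.asIdeal).Prime) → (∀ t ∈ T, Unram K (Ideal.absNorm t.asIdeal)) →
  (∀ x : Kˣ, (∀ t ∈ T, x ∈ OneAt t) → χ (prin x) = 0) →
  ∃ (H : Type) (_ : Field H) (_ : NumberField H) (_ : Algebra K H) (_ : IsGalois K H)
    (ψ : (H ≃ₐ[K] H) →* ℂˣ) (N' : ℕ), Function.Injective ψ ∧ N' ≠ 0 ∧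
    Pool.Agent.Q92.AR.Ram K H N' ∧ (∀ D ∈ Pr K N', art ψ D = χ D) ∧
    ∀ v : HeightOneSpectrum (𝓞 K), v ∉ T → Unramified H v

/-- what the job UT has to prove -/
def J_UT : Prop := S_LL → S_BC → S_UT

/-- JOB SH-HC.  **The extension belonging to `χ`** is cyclic of degree `p^m`.
Proof.  `Gal(H/K)` is cyclic (a finite subgroup of `ℂˣ`), and `ψ(g)^(p^m) = 1` (every `g` is a Frobenius element of
a `v ∤ N'`, `S_CB`, and `p^m χ = 0`), so its order divides `p^m`.  Let `v ∈ T`, `u` from `RamAt`; choose `y ≡ 1` at `T`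
with `prin (u y) ∈ Pr K N'` (`u` is a unit at `T`: at `w ≠ v` it is `≡ 1`); `art ψ (prin (u y)) = χ(prin u)` has order
`p^m` (killed by `p^m` and not by `p^(m-1)`), so the order of the group is `p^m` (compare `S_HX`,
`Pool.Agent.Q150.SG.hx`).
`NormKill`: let `[E : K] = p^j` (`j ≤ m`).  `ψ' = ψ^(p^(m-j))` is trivial on `Gal(H/E)` (the subgroup of order
`p^(m-j)`), so for `D ∈ Pr E N'`, `p^(m-j) χ(nmD K E D) = art ψ' (nmD K E D) = art (ψ'|Gal(H/E)) D = 0` (`S_RES` of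
`Pool.Agent.Q20.EX.Stm2`, proved; `nmD` maps `Pr E N'` to `Pr K N'`, `S_Nm` (4)).  Let `D ∈ Dv E`.  The part of `D`
above `T` is mapped by `nmD` to a divisor supported in `T`, which `χ` kills (`IsX.zero`); so let `D` be prime to
`T`.  By approximation choose `c ∈ Eˣ`, `c ≡ 1` at the primes above `T`, of order `D w` at the other primes
`w ∣ N'`.  `D - prin c ∈ Pr E N'`, and `nu K E c ≡ 1` at `T`, so `χ(nmD K E (prin c)) = χ(prin (nu K E c)) = 0`. -/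
def S_HC : Prop := ∀ (p : ℕ) [Fact p.Prime] (K H : Type) [Field K] [NumberField K]
  [Field H] [NumberField H] [Algebra K H] [IsGalois K H] (m : ℕ), 1 ≤ m →
  ∀ (T : Finset (HeightOneSpectrum (𝓞 K))) (χ : Dv K →+ Additive ℂˣ), Adm p m T χ → T.Nonempty →
  ∀ (ψ : (H ≃ₐ[K] H) →* ℂˣ), Function.Injective ψ → ∀ (N' : ℕ), N' ≠ 0 →
  Pool.Agent.Q92.AR.Ram K H N' → (∀ D ∈ Pr K N', art ψ D = χ D) →
  finrank K H = p ^ m ∧ NormKill p m χ H ∧
  ∃ g : H ≃ₐ[K] H, ∀ h : H ≃ₐ[K] H, h ∈ Subgroup.zpowers g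

/-- JOB SH-HR.  The primes of `T` ramify in the extension belonging to `χ`.
Proof.  Let `v ∈ T` be unramified in `H`, `u` from `RamAt`.  Let `N` be a multiple of `N'` and of all `N(t)`, `t ∈ T`;
`art ψ` kills the divisors of `Ray K N` (`x ≡ 1` at `T`, `prin x ∈ Pr K N'`).  By `S_TRIV` (with `S_NRM`; both proved, see
`Pool.Agent.Q20.EX.All` and its imports) `TrivAt {v | Unramified H v} N (art ψ)`.  By approximation choose `x ∈ Kˣ`
totally positive, with `x ≡ u` at `v`, `x ≡ 1 mod N` at the other primes dividing `N`.  Then `art ψ (prin x) = 0`, and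
`x/u ≡ 1` at all primes of `T`, so `χ(prin u) = χ(prin x) = art ψ (prin x) = 0`, a contradiction to
`p^(m-1) χ(prin u) ≠ 0`. -/
def S_HR : Prop := ∀ (p : ℕ) [Fact p.Prime] (K H : Type) [Field K] [NumberField K]
  [Field H] [NumberField H] [Algebra K H] [IsGalois K H] (m : ℕ), 1 ≤ m →
  ∀ (T : Finset (HeightOneSpectrum (𝓞 K))) (χ : Dv K →+ Additive ℂˣ), Adm p m T χ →
  ∀ (ψ : (H ≃ₐ[K] H) →* ℂˣ) (N' : ℕ), N' ≠ 0 →
  Pool.Agent.Q92.AR.Ram K H N' → (∀ D ∈ Pr K N', art ψ D = χ D) →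
  ∀ v ∈ T, ¬ Unramified H v

/-! ## Part F: Leopoldt's conjecture -/

/-- JOB SH-LEO.  From Leopoldt's conjecture for `K` to Leopoldt's conjecture for `H`.
Proof.  `Pool.Agent.Y944.LC.ta : TA` gives `Top K p`, and `TB` (`Pool.Agent.Y18.LC.Stm`, proved in the library,
search `: TB`) reduces the claim to `Top H p`: for every `s` there is an `M` such that every unit `u` of `H` with
`p^M ∣ u - 1` is a `p^s`-th power of a unit.  Let `u` be near `1`.  The norm `n = ∏_{i<p} τ^i u` is a unit of `K` near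
`1`, so `n = w^(p^(s+1))` by `Top K p` (no `p`-torsion).  `u^p / n` has relative norm `1` and is near `1`, so it is
`y^(p^(s+1))` by `TopRel` for `S = Set.univ` (`p^k ∣ x - 1` in `𝓞 H` implies `‖σ x - 1‖ ≤ p^(-k)` for all `σ`, and
conversely by `S_VL`-type arguments, see `Pool.Agent.Q25.SG.IntEmb`).  So `u^p = (w y)^(p^(s+1))` and
`u = (w y)^(p^s)`, as there is no `p`-torsion. -/
def S_LEO : Prop := ∀ (p : ℕ) [Fact p.Prime], p ≠ 2 → ∀ (K H : Type) [Field K] [NumberField K]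
  [Field H] [NumberField H] [Algebra K H] [IsGalois K H], finrank K H = p → Unram K p → Unram H p →
  ∀ τ : H ≃ₐ[K] H, orderOf τ = p → TopRel (Set.univ : Set (K →+* ℂ_[p])) τ →
  Pool.Agent.H637R2.Leo.Leopoldt K p → Pool.Agent.H637R2.Leo.Leopoldt H p

/-- JOB SH-BU.  The set of all embeddings is big.
Proof.  `I = {a : ‖σ a‖ < 1 for all σ}` is the intersection of all primes above `p` (`S_PS`), so it is the radical of
`(p)`, that is `(p)`, of norm `p^n`, `n = [K : ℚ] = r₁ + 2 r₂ ≥ r₁ + r₂ = rank + 1`. -/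
def S_BU : Prop := ∀ (p : ℕ) [Fact p.Prime] (K : Type) [Field K] [NumberField K], Unram K p →
  Big (Set.univ : Set (K →+* ℂ_[p]))

/-- JOB SH-BCM.  A `p`-ordinary CM type is big.
Proof.  `S_DG` gives `I` of norm `p^d`, `d = [F : ℚ]`, and the rank of the units of `K` is `d - 1` (`K` is totally complex
of degree `2 d`; Mathlib `NumberField.Units.rank`).  There are embeddings outside `S`: if `τ ∈ S` then `τ ∘ c ∉ S`,
`c ≠ 1` the automorphism of `K/F` (`IsCMType`), and embeddings exist. -/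
def S_BCM : Prop := ∀ (p : ℕ) [Fact p.Prime] (F K : Type) [Field F] [NumberField F]
  [Field K] [NumberField K] [IsTotallyReal F] [IsTotallyComplex K] [Algebra F K], finrank F K = 2 →
  Unram K p → ∀ S : Set (K →+* ℂ_[p]), Pool.Agent.W289.SL.IsCMType p F K S → PlaceClosed S →
  Big S ∧ ∃ τ : K →+* ℂ_[p], τ ∉ S

end Pool.Agent.Q5.SH
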