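import Pool.Agent.Q5.SH.Stm
import Pool.Agent.Q5.SH.Base
import Pool.Agent.Q5.SG.Asm

/-!
# Project SH (helper5): assembly
-/

set_option autoImplicit false
set_option linter.unusedSectionVars false

namespace Pool.Agent.Q5.SH

open NumberField IsDedekindDomain Module Pool.Agent.Y18.LC Pool.Agent.Q5.SG
open Pool.Agent.Q92.AR (Dv prin Pr Ray RayD art nmD nu Cong Pos frob IsFrobenius Unramified SupF)

section
variable {p : ℕ} [Fact p.Prime] {K : Type} [Field K] [NumberField K]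

theorem adm_empty (p m : ℕ) : Adm p m (∅ : Finset (HeightOneSpectrum (𝓞 K))) 0 where
  isX := ⟨fun _ => by rw [AddMonoidHom.zero_apply, smul_zero], fun _ h => absurd h (Finset.notMem_empty _),
    fun _ _ => AddMonoidHom.zero_apply _⟩
  ram _ h := absurd h (Finset.notMem_empty _)
  norm _ h := absurd h (Finset.notMem_empty _)
  unr _ h := absurd h (Finset.notMem_empty _)
  np _ h := absurd h (Finset.notMem_empty _)

/-- the Selmer group can be made trivial -/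
theorem exists_triv (hST : S_ST) (hp : p ≠ 2) (hK : Unram K p) (S : Set (K →+* ℂ_[p]))
    (hS : PlaceClosed S) (hB : Big S) (m : ℕ) (hm : 1 ≤ m) (hmS : m = 1 ∨ ∃ τ : K →+* ℂ_[p], τ ∉ S)
    (B : Set (HeightOneSpectrum (𝓞 K))) (hBf : B.Finite) :
    ∃ (T : Finset (HeightOneSpectrum (𝓞 K))) (χ : Dv K →+ Additive ℂˣ), Adm p m T χ ∧ T.Nonempty ∧
      (∀ v ∈ T, v ∉ B) ∧ Rg S T (p ^ (m - 1) • χ) ≤ PW K p := by
  have key : ∀ n : ℕ, ∀ (T : Finset (HeightOneSpectrum (𝓞 K))) (χ : Dv K →+ Additive ℂˣ),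
      Adm p m T χ → (∀ v ∈ T, v ∉ B) → (PW K p).relIndex (Rg S T (p ^ (m - 1) • χ)) = n →
      ∃ (T : Finset (HeightOneSpectrum (𝓞 K))) (χ : Dv K →+ Additive ℂˣ), Adm p m T χ ∧
        T.Nonempty ∧ (∀ v ∈ T, v ∉ B) ∧ Rg S T (p ^ (m - 1) • χ) ≤ PW K p := by
    intro n
    induction n using Nat.strong_induction_on with
    | _ n ih =>
      intro T χ hT hTB hn
      obtain ⟨T', χ', h1, h2, h3, h4, h5⟩ := hST p hp K hK S hS hB m hm hmS T χ hT B hBf
      have hTB' : ∀ v ∈ T', v ∉ B := by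
        intro v hv
        rcases h3 v hv with h | h
        · exact hTB v h
        · exact h
      by_cases hR : Rg S T (p ^ (m - 1) • χ) ≤ PW K p
      · exact ⟨T', χ', h1, h2, hTB', h4 hR⟩
      · exact ih _ (hn ▸ h5 hR) T' χ' h1 hTB' rfl
  exact key _ ∅ 0 (adm_empty p m) (fun v h => absurd h (Finset.notMem_empty v)) rfl

/-- **The main theorem**: cyclic extensions without bad layers -/
theorem main (hST : S_ST) (hUT : S_UT) (hHC : S_HC) (hHR : S_HR) (hCRIT : S_CRIT)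
    (hp : p ≠ 2) (hK : Unram K p) (S : Set (K →+* ℂ_[p]))
    (hS : PlaceClosed S) (hB : Big S) (m : ℕ) (hm : 1 ≤ m) (hmS : m = 1 ∨ ∃ τ : K →+* ℂ_[p], τ ∉ S)
    (B : Set (HeightOneSpectrum (𝓞 K))) (hBf : B.Finite) :
    ∃ T : Finset (HeightOneSpectrum (𝓞 K)), T.Nonempty ∧ (∀ v ∈ T, v ∉ B) ∧
    ∃ (H : Type) (_ : Field H) (_ : NumberField H) (_ : Algebra K H) (_ : IsGalois K H)
      (g : H ≃ₐ[K] H), (∀ h : H ≃ₐ[K] H, h ∈ Subgroup.zpowers g) ∧ finrank K H = p ^ m ∧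
      (∀ v : HeightOneSpectrum (𝓞 K), Unramified H v ↔ v ∉ T) ∧ Unram H p ∧
      ∀ j : ℕ, 1 ≤ j → j ≤ m → ¬ Bad S g 1 j := by
  obtain ⟨T, χ, hA, hne, hTB, hR⟩ := exists_triv hST hp hK S hS hB m hm hmS B hBf
  obtain ⟨H, i1, i2, i3, i4, ψ, N', hψ, hN', hRam, hart, hun⟩ := hUT K T χ hA.norm hA.unr hA.isX.ray
  obtain ⟨hd, hNK, g, hg⟩ := hHC p K H m hm T χ hA hne ψ hψ N' hN' hRam hart
  obtain ⟨hH, hbad⟩ := hCRIT p hp K H hK S g hg m hm hd T χ hA.isX hA.np hNK hun hR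
  refine ⟨T, hne, hTB, H, i1, i2, i3, i4, g, hg, hd, fun v => ⟨fun h hv => ?_, hun v⟩, hH, hbad⟩
  exact hHR p K H m hm T χ hA ψ N' hN' hRam hart v hv h

/-- no bad layer: the Sigma-Leopoldt conjecture for all nontrivial characters -/
theorem layerHolds_of_not_bad {H : Type} [Field H] [NumberField H] [Algebra K H] [IsGalois K H]
    (hp : p ≠ 2) (hH : Unram H p) (S : Set (K →+* ℂ_[p])) (hS : PlaceClosed S) (g : H ≃ₐ[K] H)
    (hg : ∀ h : H ≃ₐ[K] H, h ∈ Subgroup.zpowers g) (m n : ℕ) (hm : finrank K H = p ^ m) (j : ℕ)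
    (hj : 1 ≤ j) (hjm : j ≤ m) (hbad : ¬ Bad S g n j) : LayerHolds S H j := by
  intro E hE χ hχ
  have := isGalois_layer g hg E
  obtain ⟨τ, hτ⟩ := exists_order_p g hg E hj hE
  exact b_SL p hp K E S hS τ hτ (b_TR p hp K H hH S g hg m n j hm hj hjm hbad E hE τ hτ) χ hχ

end

end Pool.Agent.Q5.SH
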