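import Pool.Agent.Q5.SG.Stm2
import Pool.Agent.Q128.AR.Sec3

/-!
# Project SH (helper5): definitions

`K` is a number field, `T` a finite set of primes of `K`, `χ` a character of the group `Dv K` of the
divisors (fractional ideals) of `K`, `S` a set of embeddings of `K` in `ℂ_p`.
-/

set_option autoImplicit false
set_option linter.unusedSectionVars false

namespace Pool.Agent.Q5.SH

open NumberField IsDedekindDomain Module Pool.Agent.Y18.LC Pool.Agent.Q5.SG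
open Pool.Agent.Q92.AR (Dv prin Pr Ray RayD art nmD nu Cong Pos frob IsFrobenius Unramified SupF
  prin_mul prin_one prin_inv prin_div prinHom)

section
variable {K : Type} [Field K] [NumberField K]

theorem val_eq_one_of_sub {v : HeightOneSpectrum (𝓞 K)} {x : K} (h : v.valuation K (x - 1) < 1) :
    v.valuation K x = 1 := by
  have h2 : v.valuation K (x - 1) < v.valuation K (1 : K) := by rwa [map_one]
  have h3 := Valuation.map_add_eq_of_lt_right (v.valuation K) h2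
  rwa [sub_add_cancel, map_one] at h3

/-- the `x ∈ Kˣ` with `x ≡ 1 mod v` -/
def OneAt (v : HeightOneSpectrum (𝓞 K)) : Subgroup Kˣ where
  carrier := {x | v.valuation K ((x : K) - 1) < 1}
  mul_mem' {a b} ha hb := by
    have h1 : ((a * b : Kˣ) : K) - 1 = (a : K) * ((b : K) - 1) + ((a : K) - 1) := by
      rw [Units.val_mul]; ring
    show v.valuation K (((a * b : Kˣ) : K) - 1) < 1
    rw [h1]
    refine lt_of_le_of_lt (Valuation.map_add _ _ _) (max_lt ?_ ha)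
    rw [map_mul, val_eq_one_of_sub ha, one_mul]
    exact hb
  one_mem' := by
    show v.valuation K (((1 : Kˣ) : K) - 1) < 1
    rw [Units.val_one, sub_self, map_zero]
    exact zero_lt_one
  inv_mem' {a} ha := by
    have h1 : ((a⁻¹ : Kˣ) : K) - 1 = - ((a : K)⁻¹ * ((a : K) - 1)) := by
      rw [Units.val_inv_eq_inv_val, mul_sub, inv_mul_cancel₀ a.ne_zero, mul_one]; ring
    show v.valuation K (((a⁻¹ : Kˣ) : K) - 1) < 1
    rw [h1, Valuation.map_neg, map_mul, map_inv₀, val_eq_one_of_sub ha, inv_one, one_mul]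
    exact ha

theorem mem_OneAt {v : HeightOneSpectrum (𝓞 K)} {x : Kˣ} :
    x ∈ OneAt v ↔ v.valuation K ((x : K) - 1) < 1 := Iff.rfl

/-- the `x ∈ Kˣ` which are units at `v` -/
def UnitAt (v : HeightOneSpectrum (𝓞 K)) : Subgroup Kˣ where
  carrier := {x | v.valuation K (x : K) = 1}
  mul_mem' {a b} ha hb := by
    show v.valuation K ((a * b : Kˣ) : K) = 1
    rw [Units.val_mul, map_mul, show v.valuation K (a : K) = 1 from ha,
      show v.valuation K (b : K) = 1 from hb, mul_one]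
  one_mem' := by
    show v.valuation K ((1 : Kˣ) : K) = 1
    rw [Units.val_one, map_one]
  inv_mem' {a} ha := by
    show v.valuation K ((a⁻¹ : Kˣ) : K) = 1
    rw [Units.val_inv_eq_inv_val, map_inv₀, show v.valuation K (a : K) = 1 from ha, inv_one]

theorem mem_UnitAt {v : HeightOneSpectrum (𝓞 K)} {x : Kˣ} :
    x ∈ UnitAt v ↔ v.valuation K (x : K) = 1 := Iff.rfl

theorem OneAt_le (v : HeightOneSpectrum (𝓞 K)) : OneAt v ≤ UnitAt v := fun _ hx => val_eq_one_of_sub hx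

/-- `χ` is a ray class character modulo the product of the primes of `T`, of exponent `q`, extended by
zero to the primes of `T`. -/
structure IsX (T : Finset (HeightOneSpectrum (𝓞 K))) (q : ℕ) (χ : Dv K →+ Additive ℂˣ) : Prop where
  tor : ∀ D, q • χ D = 0
  zero : ∀ v ∈ T, χ (Finsupp.single v 1) = 0
  ray : ∀ x : Kˣ, (∀ v ∈ T, x ∈ OneAt v) → χ (prin x) = 0

/-- the `b ∈ Kˣ` killed by the local component of `χ` at `v ∈ T`: some `e ∈ Kˣ` which is `≡ b` at `v` and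
`≡ 1` at the other primes of `T` satisfies `χ(prin e) = 0` -/
def Loc (T : Finset (HeightOneSpectrum (𝓞 K))) (χ : Dv K →+ Additive ℂˣ)
    (v : HeightOneSpectrum (𝓞 K)) : Subgroup Kˣ where
  carrier := {b | ∃ e : Kˣ, e / b ∈ OneAt v ∧ (∀ w ∈ T, w ≠ v → e ∈ OneAt w) ∧ χ (prin e) = 0}
  mul_mem' {a b} ha hb := by
    obtain ⟨e, h1, h2, h3⟩ := ha
    obtain ⟨f, k1, k2, k3⟩ := hb
    refine ⟨e * f, ?_, fun w hw hwv => (OneAt w).mul_mem (h2 w hw hwv) (k2 w hw hwv), ?_⟩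
    · have h4 : e * f / (a * b) = (e / a) * (f / b) := by rw [mul_div_mul_comm]
      rw [h4]
      exact (OneAt v).mul_mem h1 k1
    · rw [prin_mul, map_add, h3, k3, add_zero]
  one_mem' := ⟨1, by rw [div_one]; exact (OneAt v).one_mem, fun w _ _ => (OneAt w).one_mem, by
    rw [prin_one, map_zero]⟩
  inv_mem' {a} ha := by
    obtain ⟨e, h1, h2, h3⟩ := ha
    refine ⟨e⁻¹, ?_, fun w hw hwv => (OneAt w).inv_mem (h2 w hw hwv), ?_⟩
    · have h4 : e⁻¹ / a⁻¹ = (e / a)⁻¹ := by rw [inv_div_inv, inv_div]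
      rw [h4]
      exact (OneAt v).inv_mem h1
    · rw [prin_inv, map_neg, h3, neg_zero]

theorem mem_Loc {T : Finset (HeightOneSpectrum (𝓞 K))} {χ : Dv K →+ Additive ℂˣ}
    {v : HeightOneSpectrum (𝓞 K)} {b : Kˣ} : b ∈ Loc T χ v ↔
    ∃ e : Kˣ, e / b ∈ OneAt v ∧ (∀ w ∈ T, w ≠ v → e ∈ OneAt w) ∧ χ (prin e) = 0 := Iff.rfl

/-- the `b ∈ Kˣ` whose divisor is divisible by `q` outside `T` -/
def BT (T : Finset (HeightOneSpectrum (𝓞 K))) (q : ℕ) : Subgroup Kˣ where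
  carrier := {b | ∀ v, v ∉ T → (q : ℤ) ∣ prin b v}
  mul_mem' {a b} ha hb v hv := by
    rw [prin_mul, Finsupp.add_apply]
    exact dvd_add (ha v hv) (hb v hv)
  one_mem' v _ := by rw [prin_one]; exact dvd_zero _
  inv_mem' {a} ha v hv := by
    rw [prin_inv, Finsupp.neg_apply]
    exact (dvd_neg).2 (ha v hv)

theorem mem_BT {T : Finset (HeightOneSpectrum (𝓞 K))} {q : ℕ} {b : Kˣ} :
    b ∈ BT T q ↔ ∀ v, v ∉ T → (q : ℤ) ∣ prin b v := Iff.rfl

/-- the `q`-th powers in `Kˣ` -/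
def PW (K : Type) [Field K] (q : ℕ) : Subgroup Kˣ := (powMonoidHom q : Kˣ →* Kˣ).range

theorem mem_PW {q : ℕ} {b : Kˣ} : b ∈ PW K q ↔ ∃ k : Kˣ, k ^ q = b := Iff.rfl

/-- `χ` is ramified at `v ∈ T`, of order divisible by `p ^ m` -/
def RamAt (T : Finset (HeightOneSpectrum (𝓞 K))) (χ : Dv K →+ Additive ℂˣ) (p m : ℕ)
    (v : HeightOneSpectrum (𝓞 K)) : Prop :=
  ∃ u ∈ UnitAt v, (∀ w ∈ T, w ≠ v → u ∈ OneAt w) ∧ p ^ (m - 1) • χ (prin u) ≠ 0

/-- The pairs `(T, χ)` of the project: `χ` has order dividing `p ^ m`, is unramified outside `T` and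
ramified of order `p ^ m` at the primes of `T`, which are of degree one and not above `p`. -/
structure Adm (p m : ℕ) (T : Finset (HeightOneSpectrum (𝓞 K))) (χ : Dv K →+ Additive ℂˣ) : Prop where
  isX : IsX T (p ^ m) χ
  ram : ∀ v ∈ T, RamAt T χ p m v
  norm : ∀ v ∈ T, (Ideal.absNorm v.asIdeal).Prime
  unr : ∀ v ∈ T, Unram K (Ideal.absNorm v.asIdeal)
  np : ∀ v ∈ T, (p : 𝓞 K) ∉ v.asIdeal

end

section
variable {p : ℕ} [Fact p.Prime] {K : Type} [Field K] [NumberField K]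

theorem pinv_lt_one : ((p : ℝ)⁻¹) < 1 :=
  inv_lt_one_of_one_lt₀ (by exact_mod_cast (Fact.out : p.Prime).one_lt)

theorem norm_of_Cl_two {S : Set (K →+* ℂ_[p])} {x : K} (hx : Cl S 2 x) {σ : K →+* ℂ_[p]}
    (hσ : σ.comp (algebraMap K K) ∈ S) : ‖σ x‖ = 1 :=
  norm_of_sub_one (lt_of_le_of_lt (hx σ hσ) (pow_lt_one₀ (by positivity) pinv_lt_one (by norm_num)))

/-- the `x ∈ Kˣ` which are `p ^ 2`-close to `1` above `S` -/
def CL2 (S : Set (K →+* ℂ_[p])) : Subgroup Kˣ where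
  carrier := {x | Cl S 2 (x : K)}
  mul_mem' {a b} ha hb := by
    show Cl S 2 ((a * b : Kˣ) : K)
    rw [Units.val_mul]
    exact Cl.mul ha hb fun σ hσ => (norm_of_Cl_two ha hσ).le
  one_mem' := by
    show Cl S 2 ((1 : Kˣ) : K)
    rw [Units.val_one]
    exact Cl.one
  inv_mem' {a} ha := by
    intro σ hσ
    have h1 : σ ((a⁻¹ : Kˣ) : K) - 1 = - (σ ((a⁻¹ : Kˣ) : K) * (σ (a : K) - 1)) := by
      rw [mul_sub, ← map_mul, Units.inv_mul, map_one]
      ring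
    have h2 : ‖σ ((a⁻¹ : Kˣ) : K)‖ = 1 := by
      rw [Units.val_inv_eq_inv_val, map_inv₀, norm_inv, norm_of_Cl_two ha hσ, inv_one]
    rw [h1, norm_neg, norm_mul, h2, one_mul]
    exact ha σ hσ

theorem mem_CL2 {S : Set (K →+* ℂ_[p])} {x : Kˣ} : x ∈ CL2 S ↔ Cl S 2 (x : K) := Iff.rfl

/-- the `b ∈ Kˣ` which are `p ^ 2`-close to `1` above `S` and killed by the local components of `χ` at the
primes of `T` -/
def Qg (S : Set (K →+* ℂ_[p])) (T : Finset (HeightOneSpectrum (𝓞 K))) (χ : Dv K →+ Additive ℂˣ) :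
    Subgroup Kˣ := CL2 S ⊓ ⨅ v ∈ T, Loc T χ v

theorem mem_Qg {S : Set (K →+* ℂ_[p])} {T : Finset (HeightOneSpectrum (𝓞 K))}
    {χ : Dv K →+ Additive ℂˣ} {b : Kˣ} :
    b ∈ Qg S T χ ↔ Cl S 2 (b : K) ∧ ∀ v ∈ T, b ∈ Loc T χ v := by
  unfold Qg
  rw [Subgroup.mem_inf, mem_CL2, Subgroup.mem_iInf]
  refine and_congr_right fun _ => forall_congr' fun v => ?_
  rw [Subgroup.mem_iInf]

/-- the Selmer group: the elements of `Qg` whose divisor is divisible by `p` outside `T` -/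
def Rg (S : Set (K →+* ℂ_[p])) (T : Finset (HeightOneSpectrum (𝓞 K))) (χ : Dv K →+ Additive ℂˣ) :
    Subgroup Kˣ := Qg S T χ ⊓ BT T p

theorem mem_Rg {S : Set (K →+* ℂ_[p])} {T : Finset (HeightOneSpectrum (𝓞 K))}
    {χ : Dv K →+ Additive ℂˣ} {b : Kˣ} : b ∈ Rg S T χ ↔
    (Cl S 2 (b : K) ∧ ∀ v ∈ T, b ∈ Loc T χ v) ∧ ∀ v, v ∉ T → (p : ℤ) ∣ prin b v := by
  unfold Rg
  rw [Subgroup.mem_inf, mem_Qg, mem_BT]

/-- the primes of `K` above `p` which belong to the embeddings of `S` -/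
def PSet (S : Set (K →+* ℂ_[p])) : Set (HeightOneSpectrum (𝓞 K)) :=
  {v | (p : 𝓞 K) ∈ v.asIdeal ∧ ∃ σ ∈ S, ∀ a : 𝓞 K, a ∈ v.asIdeal ↔ ‖σ (a : K)‖ < 1}

/-- the group of the divisors `prin b + p D' + D''`, `b ∈ Qg`, `D''` supported in `T` and `PSet S` -/
noncomputable def NQ (S : Set (K →+* ℂ_[p])) (T : Finset (HeightOneSpectrum (𝓞 K)))
    (χ : Dv K →+ Additive ℂˣ) : AddSubgroup (Dv K) where
  carrier := {D | ∃ b ∈ Qg S T χ, ∃ D' : Dv K, ∃ D'' ∈ SupF K ((T : Set (HeightOneSpectrum (𝓞 K))) ∪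
    PSet S), D = prin b + p • D' + D''}
  add_mem' {a b} ha hb := by
    obtain ⟨x, hx, D1, D2, h2, rfl⟩ := ha
    obtain ⟨y, hy, E1, E2, k2, rfl⟩ := hb
    refine ⟨x * y, (Qg S T χ).mul_mem hx hy, D1 + E1, D2 + E2, add_mem h2 k2, ?_⟩
    rw [prin_mul, smul_add]
    abel
  zero_mem' := ⟨1, (Qg S T χ).one_mem, 0, 0, zero_mem _, by rw [prin_one, smul_zero]; simp⟩
  neg_mem' {a} ha := by
    obtain ⟨x, hx, D1, D2, h2, rfl⟩ := ha
    refine ⟨x⁻¹, (Qg S T χ).inv_mem hx, -D1, -D2, neg_mem h2, ?_⟩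
    rw [prin_inv, smul_neg]
    abel

theorem mem_NQ {S : Set (K →+* ℂ_[p])} {T : Finset (HeightOneSpectrum (𝓞 K))}
    {χ : Dv K →+ Additive ℂˣ} {D : Dv K} : D ∈ NQ S T χ ↔
    ∃ b ∈ Qg S T χ, ∃ D' : Dv K, ∃ D'' ∈ SupF K ((T : Set (HeightOneSpectrum (𝓞 K))) ∪
      PSet S), D = prin b + p • D' + D'' := Iff.rfl

/-- the set `S` is big: the ideal `{a : ‖σ a‖ < 1 for all σ ∈ S}` has norm at least `p ^ (r + 1)`, `r` the rank
of the group of units -/
def Big (S : Set (K →+* ℂ_[p])) : Prop :=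
  ∃ I : Ideal (𝓞 K), (∀ a : 𝓞 K, a ∈ I ↔ ∀ σ ∈ S, ‖σ (a : K)‖ < 1) ∧
    p ^ (NumberField.Units.rank K + 1) ≤ Ideal.absNorm I

end

/-- The extension `H/K` belongs to the character `χ`: for every subfield `E` of degree `p ^ j` over `K` the
character `p ^ (m - j) χ` kills the norms of the divisors of `E`. -/
def NormKill (p m : ℕ) {K : Type} [Field K] [NumberField K] (χ : Dv K →+ Additive ℂˣ) (H : Type)
    [Field H] [NumberField H] [Algebra K H] : Prop :=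
  ∀ (j : ℕ) (E : IntermediateField K H), finrank K E = p ^ j → ∀ D : Dv E,
    p ^ (m - j) • χ (nmD K E D) = 0

/-- the inertia groups above `v`, in all Galois extensions of `K` containing `L`, act trivially on `L`
(that is, `v` is unramified in `L`) -/
def InTriv (K L : Type) [Field K] [NumberField K] [Field L] [NumberField L] [Algebra K L]
    (v : HeightOneSpectrum (𝓞 K)) : Prop :=
  ∀ (Ω : Type) [Field Ω] [NumberField Ω] [Algebra K Ω] [Algebra L Ω] [IsScalarTower K L Ω]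
    [IsGalois K Ω] (W : HeightOneSpectrum (𝓞 Ω)), W.under (𝓞 K) = v → ∀ g : Ω ≃ₐ[K] Ω,
    (∀ x : 𝓞 Ω, W.valuation Ω (g (x : Ω) - (x : Ω)) < 1) →
    ∀ y : L, g (algebraMap L Ω y) = algebraMap L Ω y

end Pool.Agent.Q5.SH
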