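import Pool.Agent.Q5.SH.Asm
import Pool.Agent.Q68.SH.CA
import Pool.Agent.Q261.SH.TC
import Pool.Agent.Q96.SH.LS
import Pool.Agent.Q96.SH.NL
import Pool.Agent.Q238.SH.CRIT
import Pool.Agent.Q65.SH.GB
import Pool.Agent.Q65.SH.WU
import Pool.Agent.Q65.SH.KS
import Pool.Agent.Q193.SH.CG
import Pool.Agent.Q193.SH.DU
import Pool.Agent.Q222.SH.FI
import Pool.Agent.Q222.SH.MV
import Pool.Agent.Q222.SH.TR1
import Pool.Agent.Q222.SH.EE
import Pool.Agent.Q222.SH.EXT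
import Pool.Agent.Q96.SH.CNT
import Pool.Agent.Q262.SH.NC
import Pool.Agent.Q248.SH.KV
import Pool.Agent.Q248.SH.NEW
import Pool.Agent.Q248.SH.ST
import Pool.Agent.Q149.SH.SEL
import Pool.Agent.Q224.SH.HC
import Pool.Agent.Q224.SH.HR

/-!
# Project SH (helper5): the statements of the parts A, B, C, D
-/

set_option autoImplicit false

namespace Pool.Agent.Q5.SH

theorem t_LS : S_LS := Pool.Agent.Q96.SH.ls Pool.Agent.Q261.SH.tc

theorem t_CRIT : S_CRIT := Pool.Agent.Q238.SH.crit Pool.Agent.Q68.SH.ca t_LS Pool.Agent.Q96.SH.nl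

theorem t_CNT : S_CNT := Pool.Agent.Q96.SH.cnt Pool.Agent.Q65.SH.gb Pool.Agent.Q65.SH.wu
  Pool.Agent.Q193.SH.cg Pool.Agent.Q222.SH.fi

theorem t_NC : S_NC := Pool.Agent.Q262.SH.nc Pool.Agent.Q222.SH.tr1 Pool.Agent.Q222.SH.mv

theorem t_SEL : S_SEL := Pool.Agent.Q149.SH.sel Pool.Agent.Q222.SH.fi Pool.Agent.Q65.SH.ks
  Pool.Agent.Q222.SH.mv t_NC Pool.Agent.Q193.SH.du Pool.Agent.Q248.SH.kv

theorem t_NEW : S_NEW := Pool.Agent.Q248.SH.new Pool.Agent.Q222.SH.ext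

theorem t_ST : S_ST := Pool.Agent.Q248.SH.st t_CNT t_SEL Pool.Agent.Q222.SH.ee t_NEW

end Pool.Agent.Q5.SH
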