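import Pool.Agent.Q5.SG.Asm

/-!
# Transport of `TopRel` along an isomorphism over `K`
-/

set_option autoImplicit false
set_option linter.unusedSectionVars false

namespace Pool.Agent.Q5.SH

open NumberField IsDedekindDomain Module Pool.Agent.Y18.LC Pool.Agent.Q5.SG

section
variable {p : ℕ} [Fact p.Prime] {K E H : Type} [Field K] [NumberField K] [Field E] [NumberField E]
  [Field H] [NumberField H] [Algebra K E] [Algebra K H]

theorem EU_map (e : E ≃ₐ[K] H) {u : Eˣ} (hu : u ∈ EU E) :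
    Units.map (e : E →* H) u ∈ EU H := by
  obtain ⟨a, ha⟩ := mem_EU.1 hu
  refine mem_EU.2 ⟨Units.map (RingOfIntegers.mapRingHom (e : E →+* H)).toMonoidHom a, ?_⟩
  rw [Units.coe_map]
  show e ((a : 𝓞 E) : E) = _
  rw [ha]
  rfl

theorem CU_map (e : E ≃ₐ[K] H) {S : Set (K →+* ℂ_[p])} {n : ℕ} {u : Eˣ} (hu : u ∈ CU S E n) :
    Units.map (e : E →* H) u ∈ CU S H n := by
  refine ⟨EU_map e hu.1, ?_⟩
  intro σ hσ
  have h1 : (σ.comp (e : E →+* H)).comp (algebraMap K E) = σ.comp (algebraMap K H) := by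
    ext x
    show σ (e (algebraMap K E x)) = σ (algebraMap K H x)
    rw [e.commutes]
  have h2 := hu.2 (σ.comp (e : E →+* H)) (by rw [h1]; exact hσ)
  exact h2

theorem topRel_transport (e : E ≃ₐ[K] H) {S : Set (K →+* ℂ_[p])} (τ : E ≃ₐ[K] E)
    (h : TopRel S τ) : TopRel S (AlgEquiv.autCongr e τ) := by
  intro s
  obtain ⟨M, hM⟩ := h s
  refine ⟨M, fun u hu hprod => ?_⟩
  have h1 : ∀ (i : ℕ) (x : H), e.symm ((AlgEquiv.autCongr e τ ^ i) x) = (τ ^ i) (e.symm x) := by
    intro i
    induction i with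
    | zero => intro x; rfl
    | succ k ih =>
      intro x
      rw [pow_succ, pow_succ, AlgEquiv.mul_apply, AlgEquiv.mul_apply, ih]
      have h2 : e.symm ((AlgEquiv.autCongr e τ) x) = τ (e.symm x) := e.symm_apply_apply _
      rw [h2]
  obtain ⟨w, hw, hws⟩ := hM _ (CU_map e.symm hu) (by
    have h2 := congrArg (Units.map (e.symm : H →* E)) hprod
    rw [map_prod, map_one] at h2
    rw [← h2]
    refine Finset.prod_congr rfl fun i _ => ?_
    apply Units.ext
    show (τ ^ i) (e.symm (u : H)) = e.symm ((AlgEquiv.autCongr e τ ^ i) (u : H))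
    rw [h1])
  refine ⟨Units.map (e : E →* H) w, EU_map e hw, ?_⟩
  rw [← map_pow, hws]
  apply Units.ext
  show e (e.symm (u : H)) = u
  exact e.apply_symm_apply _

/-- from the top layer to `H` -/
theorem topRel_top [IsGalois K H] {S : Set (K →+* ℂ_[p])} (g : H ≃ₐ[K] H) {n : ℕ}
    (hg : orderOf g = n)
    (h : ∀ τ : (⊤ : IntermediateField K H) ≃ₐ[K] (⊤ : IntermediateField K H), orderOf τ = n → TopRel S τ) :
    TopRel S g := by
  let e : (⊤ : IntermediateField K H) ≃ₐ[K] H := IntermediateField.topEquiv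
  have h1 : orderOf ((AlgEquiv.autCongr e).symm g) = n := by
    rw [← hg]
    exact MulEquiv.orderOf_eq (AlgEquiv.autCongr e).symm g
  have h2 := topRel_transport e ((AlgEquiv.autCongr e).symm g) (h _ h1)
  rwa [MulEquiv.apply_symm_apply] at h2

end

end Pool.Agent.Q5.SH
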